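import Mathlib

set_option autoImplicit false

namespace Pool.Agent.Results.MP_38ee21_nt.FactorialPrimes


/-- `f 1 = 2`, `f 2 = 3`, `f (n + 1) = (f n)!` for `n ≥ 2`. -/
def f : ℕ → ℕ
  | 0 => 1
  | 1 => 2
  | 2 => 3
  | (n + 3) => (Nat.factorial (f (n + 2)))

/-- The atoms in the unknowns `x_1, …, x_n`. -/
inductive Atom (n : ℕ) : Type
  /-- `x_i + 1 = x_k` -/
  | succ (i k : Fin n) : Atom n
  /-- `x_i ! = x_k` -/
  | fact (i k : Fin n) : Atom n
  /-- `x_i` does not divide `x_k` -/
  | ndvd (i k : Fin n) : Atom n

/-- Truth of an atom. -/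
def Atom.Holds {n : ℕ} (x : Fin n → ℕ) : Atom n → Prop
  | Atom.succ i k => x i + 1 = x k
  | Atom.fact i k => (Nat.factorial (x i)) = x k
  | Atom.ndvd i k => ¬ x i ∣ x k

/-- The solutions of a system in positive integers. -/
def Sol {n : ℕ} (S : Set (Atom n)) : Set (Fin n → ℕ) :=
  {x | (∀ i, 0 < x i) ∧ ∀ A ∈ S, A.Holds x}

/-- The statement `Φ_n`. -/
def Phi (n : ℕ) : Prop :=
  ∀ S : Set (Atom n), (Sol S).Finite → ∀ x ∈ Sol S, ∀ i, x i ≤ f n

/-- `y` satisfies every atom satisfied by `x`. -/
def Pres {n : ℕ} (x y : Fin n → ℕ) : Prop :=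
  (∀ i, 0 < y i) ∧ ∀ A : Atom n, A.Holds x → A.Holds y

lemma phi_of {n : ℕ} (h : ∀ x : Fin n → ℕ, (∀ i, 0 < x i) → ∀ j, (∀ i, x i ≤ x j) → f n < x j →
    ∀ N : ℕ, ∃ y : Fin n → ℕ, Pres x y ∧ N < y j) : Phi n := by
  intro S hfin x hx i
  by_contra hlt
  push Not at hlt
  obtain ⟨j, -, hj⟩ := Finset.exists_max_image (Finset.univ : Finset (Fin n)) x ⟨i, Finset.mem_univ _⟩
  have hj' : ∀ k, x k ≤ x j := fun k => hj k (Finset.mem_univ _)
  have hfj : f n < x j := lt_of_lt_of_le hlt (hj' i)
  obtain ⟨B, hB⟩ := (hfin.image (fun y => y j)).bddAbove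
  obtain ⟨y, hy, hN⟩ := h x hx.1 j hj' hfj B
  have hyS : y ∈ Sol S := ⟨hy.1, fun A hA => hy.2 A (hx.2 A hA)⟩
  have := hB (Set.mem_image_of_mem _ hyS)
  omega

lemma fac_gt1 {b : ℕ} (hb : 3 ≤ b) : b + 1 < (Nat.factorial b) := by
  obtain ⟨c, rfl⟩ : ∃ c, b = c + 1 := ⟨b - 1, by omega⟩
  rw [Nat.factorial_succ]
  have : c ≤ (Nat.factorial c) := Nat.self_le_factorial c
  have h2 : 2 ≤ (Nat.factorial c) := le_trans (by omega) this
  nlinarith

lemma fac_gt2 {b : ℕ} (hb : 4 ≤ b) : b + 2 < (Nat.factorial b) := by
  obtain ⟨c, rfl⟩ : ∃ c, b = c + 1 := ⟨b - 1, by omega⟩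
  rw [Nat.factorial_succ]
  have : c ≤ (Nat.factorial c) := Nat.self_le_factorial c
  have h2 : 3 ≤ (Nat.factorial c) := le_trans (by omega) this
  nlinarith

lemma not_dvd_succ {a : ℕ} (ha : 2 ≤ a) : ¬ a ∣ a + 1 := by
  intro h
  have := (Nat.dvd_add_right (dvd_refl a)).1 h
  have := Nat.le_of_dvd one_pos this
  omega

/-- the conditions on the images `a', b', c'` of `a < b < c` -/
structure Good (N a b c a' b' c' : ℕ) : Prop where
  s1 : a + 1 = b → a' + 1 = b'
  s2 : b + 1 = c → b' + 1 = c'
  f1 : (Nat.factorial a) = a → (Nat.factorial a') = a'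
  f2 : (Nat.factorial b) = b → (Nat.factorial b') = b'
  f3 : (Nat.factorial a) = b → (Nat.factorial a') = b'
  f4 : (Nat.factorial b) = c → (Nat.factorial b') = c'
  f5 : (Nat.factorial a) = c → (Nat.factorial a') = c'
  d1 : ¬ b' ∣ a'
  d2 : ¬ c' ∣ a'
  d3 : ¬ c' ∣ b'
  d4 : ¬ a ∣ b → ¬ a' ∣ b'
  d5 : ¬ a ∣ c → ¬ a' ∣ c'
  d6 : ¬ b ∣ c → ¬ b' ∣ c'
  p1 : 0 < a'
  p2 : 0 < b'
  p3 : N < c'

lemma nd {u v : ℕ} (hv : 0 < v) (h : v < u) : ¬ u ∣ v := Nat.not_dvd_of_pos_of_lt hv h

lemma nd_shift {a c t : ℕ} (h : ¬ a ∣ c) : ¬ a ∣ c + t * a := by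
  intro h'
  exact h ((Nat.dvd_add_left (Dvd.intro_left t rfl)).1 h')

lemma core3 (N a b c : ℕ) (ha : 0 < a) (hab : a < b) (hbc : b < c) (hc : 7 ≤ c) :
    ∃ a' b' c', Good N a b c a' b' c' := by
  have ffact : ∀ {m : ℕ}, 3 ≤ m → (Nat.factorial m) ≠ m := fun {m} hm => by have := fac_gt1 hm; omega
  have small : ∀ {m : ℕ}, m ≤ 3 → (Nat.factorial m) ≤ 6 := fun {m} hm => by
    calc (Nat.factorial m) ≤ (Nat.factorial 3) := Nat.factorial_le hm
      _ = 6 := rfl
  by_cases h2 : b + 1 = c
  · -- `c = b + 1`
    have hb6 : 6 ≤ b := by omega
    by_cases h1 : a + 1 = b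
    · set m := N + 3 with hm
      refine ⟨m, m + 1, m + 2, ?_⟩
      have g1 := fac_gt1 (show 3 ≤ a by omega)
      have g2 := fac_gt2 (show 4 ≤ a by omega)
      have g3 := fac_gt1 (show 3 ≤ b by omega)
      exact { s1 := fun _ => rfl, s2 := fun _ => rfl, f1 := fun h => by omega, f2 := fun h => by omega,
              f3 := fun h => by omega, f4 := fun h => by omega, f5 := fun h => by omega,
              d1 := nd (by omega) (by omega), d2 := nd (by omega) (by omega),
              d3 := nd (by omega) (by omega), d4 := fun _ => not_dvd_succ (by omega),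
              d5 := fun _ h => by
                have h' := (Nat.dvd_add_right (dvd_refl m)).1 h
                have := Nat.le_of_dvd (by norm_num) h'
                omega
              d6 := fun _ => not_dvd_succ (by omega), p1 := by omega, p2 := by omega,
              p3 := by omega }
    · by_cases h3 : (Nat.factorial a) = b
      · set m := N + 3 with hm
        have g1 := fac_gt1 (show 3 ≤ m by omega)
        have g3 := fac_gt1 (show 3 ≤ b by omega)
        refine ⟨m, (Nat.factorial m), (Nat.factorial m) + 1, ?_⟩
        exact { s1 := fun h => absurd h h1, s2 := fun _ => rfl, f1 := fun h => by omega,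
                f2 := fun h => by omega, f3 := fun _ => rfl, f4 := fun h => by omega,
                f5 := fun h => by omega, d1 := nd (by omega) (by omega),
                d2 := nd (by omega) (by omega), d3 := nd (by omega) (by omega),
                d4 := fun h => absurd (by rw [← h3]; exact Nat.dvd_factorial ha le_rfl) h,
                d5 := fun _ h => by
                  have h' := (Nat.dvd_add_right (Nat.dvd_factorial (by omega) le_rfl)).1 h
                  have := Nat.le_of_dvd one_pos h'
                  omega
                d6 := fun _ => not_dvd_succ (by omega), p1 := by omega, p2 := by omega,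
                p3 := by omega }
      · by_cases h5 : (Nat.factorial a) = c
        · have ha4 : 4 ≤ a := by
            by_contra hcon
            have := small (show a ≤ 3 by omega)
            omega
          set m := N + 4 with hm
          have g1 := fac_gt2 (show 4 ≤ m by omega)
          have g3 := fac_gt1 (show 3 ≤ b by omega)
          have g4 := fac_gt1 (show 3 ≤ a by omega)
          refine ⟨m, (Nat.factorial m) - 1, (Nat.factorial m), ?_⟩
          exact { s1 := fun h => absurd h h1, s2 := fun _ => by omega, f1 := fun h => by omega,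
                  f2 := fun h => by omega, f3 := fun h => absurd h h3, f4 := fun h => by omega,
                  f5 := fun _ => rfl, d1 := nd (by omega) (by omega),
                  d2 := nd (by omega) (by omega), d3 := nd (by omega) (by omega),
                  d4 := fun _ h => by
                    have h6 : m ∣ (Nat.factorial m) := Nat.dvd_factorial (by omega) le_rfl
                    have h7 : (Nat.factorial m) = ((Nat.factorial m) - 1) + 1 := by omega
                    rw [h7] at h6
                    have h' := (Nat.dvd_add_right h).1 h6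
                    have := Nat.le_of_dvd one_pos h'
                    omega
                  d5 := fun h => absurd (by rw [← h5]; exact Nat.dvd_factorial ha le_rfl) h,
                  d6 := fun _ h => by
                    have h7 : (Nat.factorial m) = ((Nat.factorial m) - 1) + 1 := by omega
                    generalize hw : (Nat.factorial m) - 1 = w at h h7
                    rw [h7] at h
                    exact not_dvd_succ (show 2 ≤ w by omega) h
                  p1 := by omega, p2 := by omega, p3 := by omega }
        · set t := N + 1 with ht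
          have hta : t ≤ t * a := Nat.le_mul_of_pos_right _ ha
          have g3 := fac_gt1 (show 3 ≤ b by omega)
          refine ⟨a, b + t * a, c + t * a, ?_⟩
          exact { s1 := fun h => absurd h h1, s2 := fun _ => by omega, f1 := fun h => h,
                  f2 := fun h => by omega, f3 := fun h => absurd h h3, f4 := fun h => by omega,
                  f5 := fun h => absurd h h5, d1 := nd (by omega) (by omega),
                  d2 := nd (by omega) (by omega), d3 := nd (by omega) (by omega),
                  d4 := nd_shift, d5 := nd_shift,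
                  d6 := fun _ => by
                    have : c + t * a = (b + t * a) + 1 := by omega
                    rw [this]; exact not_dvd_succ (by omega)
                  p1 := ha, p2 := by omega, p3 := by omega }
  · by_cases h4 : (Nat.factorial b) = c
    · -- `c = b!`
      have hb4 : 4 ≤ b := by
        by_contra hcon
        have := small (show b ≤ 3 by omega)
        omega
      have g3 := fac_gt1 (show 3 ≤ b by omega)
      have hacc : a ∣ c := by rw [← h4]; exact Nat.dvd_factorial ha hab.le
      have hbcc : b ∣ c := by rw [← h4]; exact Nat.dvd_factorial (by omega) le_rfl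
      have hnac : (Nat.factorial a) ≠ c := by
        intro h
        rw [← h4] at h
        by_cases ha3 : a < 2
        · have : (Nat.factorial a) ≤ (Nat.factorial 1) := Nat.factorial_le (by omega)
          simp at this
          omega
        · exact absurd ((Nat.factorial_inj (by omega)).1 h) (by omega)
      by_cases h1 : a + 1 = b
      · set m := N + 3 with hm
        have g1 := fac_gt1 (show 3 ≤ m + 1 by omega)
        have g4 := fac_gt1 (show 3 ≤ a by omega)
        refine ⟨m, m + 1, (Nat.factorial (m + 1)), ?_⟩
        exact { s1 := fun _ => rfl, s2 := fun h => absurd h h2, f1 := fun h => by omega,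
                f2 := fun h => by omega, f3 := fun h => by omega, f4 := fun _ => rfl,
                f5 := fun h => absurd h hnac, d1 := nd (by omega) (by omega),
                d2 := nd (by omega) (by omega), d3 := nd (by omega) (by omega),
                d4 := fun _ => not_dvd_succ (by omega), d5 := fun h => absurd hacc h,
                d6 := fun h => absurd hbcc h, p1 := by omega, p2 := by omega, p3 := by omega }
      · by_cases h3 : (Nat.factorial a) = b
        · set m := N + 3 with hm
          have g1 := fac_gt1 (show 3 ≤ m by omega)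
          have g5 := fac_gt1 (show 3 ≤ (Nat.factorial m) by omega)
          have ha3 : 3 ≤ a := by
            by_contra hcon
            have : (Nat.factorial a) ≤ (Nat.factorial 2) := Nat.factorial_le (by omega)
            simp at this
            omega
          have g4 := fac_gt1 ha3
          refine ⟨m, (Nat.factorial m), (Nat.factorial (Nat.factorial m)), ?_⟩
          exact { s1 := fun h => absurd h h1, s2 := fun h => absurd h h2, f1 := fun h => by omega,
                  f2 := fun h => by omega, f3 := fun _ => rfl, f4 := fun _ => rfl,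
                  f5 := fun h => absurd h hnac, d1 := nd (by omega) (by omega),
                  d2 := nd (by omega) (by omega), d3 := nd (by omega) (by omega),
                  d4 := fun h => absurd (by rw [← h3]; exact Nat.dvd_factorial ha le_rfl) h,
                  d5 := fun h => absurd hacc h,
                  d6 := fun h => absurd hbcc h, p1 := by omega, p2 := by omega, p3 := by omega }
        · set t := N + 1 with ht
          have hta : t ≤ t * a := Nat.le_mul_of_pos_right _ ha
          have g5 := fac_gt1 (show 3 ≤ b + t * a by omega)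
          refine ⟨a, b + t * a, (Nat.factorial (b + t * a)), ?_⟩
          exact { s1 := fun h => absurd h h1, s2 := fun h => absurd h h2, f1 := fun h => h,
                  f2 := fun h => by omega, f3 := fun h => absurd h h3, f4 := fun _ => rfl,
                  f5 := fun h => absurd h hnac, d1 := nd (by omega) (by omega),
                  d2 := nd (by omega) (by omega), d3 := nd (by omega) (by omega),
                  d4 := nd_shift, d5 := fun h => absurd hacc h,
                  d6 := fun h => absurd hbcc h, p1 := ha, p2 := by omega, p3 := by omega }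
    · by_cases h5 : (Nat.factorial a) = c
      · -- `c = a!`
        have ha4 : 4 ≤ a := by
          by_contra hcon
          have := small (show a ≤ 3 by omega)
          omega
        have g4 := fac_gt1 (show 3 ≤ a by omega)
        have g3 := fac_gt1 (show 3 ≤ b by omega)
        have hacc : a ∣ c := by rw [← h5]; exact Nat.dvd_factorial ha le_rfl
        by_cases h1 : a + 1 = b
        · obtain ⟨p, hpN, hp⟩ := Nat.exists_infinite_primes (N + 6)
          have g1 := fac_gt1 (show 3 ≤ p - 1 by omega)
          refine ⟨p - 1, p, (Nat.factorial (p - 1)), ?_⟩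
          exact { s1 := fun _ => by omega, s2 := fun h => absurd h h2, f1 := fun h => by omega,
                  f2 := fun h => by omega, f3 := fun h => by omega, f4 := fun h => absurd h h4,
                  f5 := fun _ => rfl, d1 := nd (by omega) (by omega),
                  d2 := nd (by omega) (by omega), d3 := nd (by omega) (by omega),
                  d4 := fun _ h => by
                    have h7 : p = (p - 1) + 1 := by omega
                    generalize hw : p - 1 = w at h h7
                    rw [h7] at h
                    exact not_dvd_succ (show 2 ≤ w by omega) h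
                  d5 := fun h => absurd hacc h,
                  d6 := fun _ h => by
                    have := (Nat.Prime.dvd_factorial hp).1 h
                    omega
                  p1 := by omega, p2 := by omega, p3 := by omega }
        · set m := N + 4 with hm
          have g1 := fac_gt1 (show 3 ≤ m by omega)
          obtain ⟨p, hpN, hp⟩ := Nat.exists_infinite_primes ((Nat.factorial m) + 1)
          refine ⟨m, p, (Nat.factorial m), ?_⟩
          exact { s1 := fun h => absurd h h1, s2 := fun h => absurd h h2, f1 := fun h => by omega,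
                  f2 := fun h => by omega, f3 := fun h => by omega, f4 := fun h => absurd h h4,
                  f5 := fun _ => rfl, d1 := nd (by omega) (by omega),
                  d2 := nd (by omega) (by omega),
                  d3 := fun h => by
                    rcases (Nat.dvd_prime hp).1 h with h | h <;> omega
                  d4 := fun _ h => by
                    rcases (Nat.dvd_prime hp).1 h with h | h <;> omega
                  d5 := fun h => absurd hacc h,
                  d6 := fun _ h => by
                    have := (Nat.Prime.dvd_factorial hp).1 h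
                    omega
                  p1 := by omega, p2 := by omega, p3 := by omega }
      · set t := N + 1 with ht
        have hta : t ≤ t * b * a := by
          calc t ≤ t * b := Nat.le_mul_of_pos_right _ (by omega)
            _ ≤ t * b * a := Nat.le_mul_of_pos_right _ ha
        have e : t * b * a = t * a * b := by ring
        refine ⟨a, b, c + t * b * a, ?_⟩
        exact { s1 := fun h => h, s2 := fun h => absurd h h2, f1 := fun h => h, f2 := fun h => h,
                f3 := fun h => h, f4 := fun h => absurd h h4, f5 := fun h => absurd h h5,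
                d1 := nd (by omega) (by omega), d2 := nd (by omega) (by omega),
                d3 := nd (by omega) (by omega), d4 := fun h => h, d5 := nd_shift,
                d6 := fun h => by rw [e]; exact nd_shift h
                p1 := ha, p2 := by omega, p3 := by omega }

/-- the conditions on the images `b', c'` of `b < c` -/
structure Good2 (N b c b' c' : ℕ) : Prop where
  s2 : b + 1 = c → b' + 1 = c'
  f2 : (Nat.factorial b) = b → (Nat.factorial b') = b'
  f4 : (Nat.factorial b) = c → (Nat.factorial b') = c'
  d3 : ¬ c' ∣ b'
  d6 : ¬ b ∣ c → ¬ b' ∣ c'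
  p2 : 0 < b'
  p3 : N < c'

lemma core2 (N b c : ℕ) (hb : 0 < b) (hbc : b < c) (hc : 4 ≤ c) :
    ∃ b' c', Good2 N b c b' c' := by
  by_cases h2 : b + 1 = c
  · set m := N + 3 with hm
    have g3 := fac_gt1 (show 3 ≤ b by omega)
    refine ⟨m, m + 1, ?_⟩
    exact { s2 := fun _ => rfl, f2 := fun h => by omega, f4 := fun h => by omega,
            d3 := nd (by omega) (by omega), d6 := fun _ => not_dvd_succ (by omega),
            p2 := by omega, p3 := by omega }
  · by_cases h4 : (Nat.factorial b) = c
    · have hb3 : 3 ≤ b := by
        by_contra hcon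
        have : (Nat.factorial b) ≤ (Nat.factorial 2) := Nat.factorial_le (by omega)
        simp at this
        omega
      set m := N + 3 with hm
      have g3 := fac_gt1 hb3
      have g4 := fac_gt1 (show 3 ≤ m by omega)
      refine ⟨m, Nat.factorial m, ?_⟩
      exact { s2 := fun h => absurd h h2, f2 := fun h => by omega, f4 := fun h => rfl,
              d3 := nd (by omega) (by omega),
              d6 := fun h => absurd (by rw [← h4]; exact Nat.dvd_factorial hb le_rfl) h,
              p2 := by omega, p3 := by omega }
    · set t := N + 1 with ht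
      have hta : t ≤ t * b := Nat.le_mul_of_pos_right _ hb
      refine ⟨b, c + t * b, ?_⟩
      exact { s2 := fun h => absurd h h2, f2 := fun h => h, f4 := fun h => absurd h h4,
              d3 := nd (by omega) (by omega), d6 := nd_shift,
              p2 := by omega, p3 := by omega }

/-- three values can always be taken to be distinct -/
lemma pick (u v c : ℕ) (hu : 0 < u) (hv : 0 < v) (huc : u ≤ c) (hvc : v ≤ c) (hc : 7 ≤ c) :
    ∃ a b, 0 < a ∧ a < b ∧ b < c ∧ (u = a ∨ u = b ∨ u = c) ∧ (v = a ∨ v = b ∨ v = c) := by
  by_cases h1 : u < c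
  · by_cases h2 : v < c
    · rcases lt_trichotomy u v with h | h | h
      · exact ⟨u, v, by omega, by omega, by omega, by omega, by omega⟩
      · by_cases h3 : u = 1
        · exact ⟨1, 2, by omega, by omega, by omega, by omega, by omega⟩
        · exact ⟨1, u, by omega, by omega, by omega, by omega, by omega⟩
      · exact ⟨v, u, by omega, by omega, by omega, by omega, by omega⟩
    · by_cases h3 : u = 1
      · exact ⟨1, 2, by omega, by omega, by omega, by omega, by omega⟩
      · exact ⟨1, u, by omega, by omega, by omega, by omega, by omega⟩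
  · by_cases h2 : v < c
    · by_cases h3 : v = 1
      · exact ⟨1, 2, by omega, by omega, by omega, by omega, by omega⟩
      · exact ⟨1, v, by omega, by omega, by omega, by omega, by omega⟩
    · exact ⟨1, 2, by omega, by omega, by omega, by omega, by omega⟩

lemma transfer3 {n : ℕ} (N : ℕ) (x : Fin n → ℕ) (a b c a' b' c' : ℕ) (ha : 0 < a) (hab : a < b)
    (hbc : b < c) (hc : 7 ≤ c) (hG : Good N a b c a' b' c')
    (hx : ∀ i, x i = a ∨ x i = b ∨ x i = c) (j : Fin n) (hj : x j = c) :
    ∃ y : Fin n → ℕ, Pres x y ∧ N < y j := by
  obtain ⟨φ, hφ⟩ : ∃ φ : ℕ → ℕ, φ = fun v => if v = a then a' else if v = b then b' else c' :=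
    ⟨_, rfl⟩
  have fa : φ a = a' := by simp [hφ]
  have fb : φ b = b' := by simp [hφ, hab.ne']
  have fc : φ c = c' := by simp [hφ, hbc.ne', (hab.trans hbc).ne']
  have q1 := Nat.self_le_factorial a
  have q2 := Nat.self_le_factorial b
  have q3 := fac_gt1 (show 3 ≤ c by omega)
  refine ⟨fun i => φ (x i), ⟨?_, ?_⟩, ?_⟩
  · intro i
    have := hG.p3
    rcases hx i with h | h | h
    · simp only [h, fa]; exact hG.p1
    · simp only [h, fb]; exact hG.p2
    · simp only [h, fc]; omega
  · intro A hA
    cases A with
    | succ i k =>
      simp only [Atom.Holds] at hA ⊢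
      rcases hx i with h | h | h <;> rcases hx k with h' | h' | h' <;> rw [h, h'] at hA <;>
        rw [h, h']
      · omega
      · rw [fa, fb]; exact hG.s1 hA
      · omega
      · omega
      · omega
      · rw [fb, fc]; exact hG.s2 hA
      · omega
      · omega
      · omega
    | fact i k =>
      simp only [Atom.Holds] at hA ⊢
      rcases hx i with h | h | h <;> rcases hx k with h' | h' | h' <;> rw [h, h'] at hA <;>
        rw [h, h']
      · rw [fa]; exact hG.f1 hA
      · rw [fa, fb]; exact hG.f3 hA
      · rw [fa, fc]; exact hG.f5 hA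
      · omega
      · rw [fb]; exact hG.f2 hA
      · rw [fb, fc]; exact hG.f4 hA
      · omega
      · omega
      · omega
    | ndvd i k =>
      simp only [Atom.Holds] at hA ⊢
      rcases hx i with h | h | h <;> rcases hx k with h' | h' | h' <;> rw [h, h'] at hA <;>
        rw [h, h']
      · exact absurd dvd_rfl hA
      · rw [fa, fb]; exact hG.d4 hA
      · rw [fa, fc]; exact hG.d5 hA
      · rw [fb, fa]; exact hG.d1
      · exact absurd dvd_rfl hA
      · rw [fb, fc]; exact hG.d6 hA
      · rw [fc, fa]; exact hG.d2
      · rw [fc, fb]; exact hG.d3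
      · exact absurd dvd_rfl hA
  · simp only [hj, fc]; exact hG.p3

lemma transfer2 {n : ℕ} (N : ℕ) (x : Fin n → ℕ) (b c b' c' : ℕ) (hb : 0 < b)
    (hbc : b < c) (hc : 4 ≤ c) (hG : Good2 N b c b' c')
    (hx : ∀ i, x i = b ∨ x i = c) (j : Fin n) (hj : x j = c) :
    ∃ y : Fin n → ℕ, Pres x y ∧ N < y j := by
  obtain ⟨φ, hφ⟩ : ∃ φ : ℕ → ℕ, φ = fun v => if v = b then b' else c' := ⟨_, rfl⟩
  have fb : φ b = b' := by simp [hφ]
  have fc : φ c = c' := by simp [hφ, hbc.ne']
  have q2 := Nat.self_le_factorial b
  have q3 := fac_gt1 (show 3 ≤ c by omega)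
  refine ⟨fun i => φ (x i), ⟨?_, ?_⟩, ?_⟩
  · intro i
    have := hG.p3
    rcases hx i with h | h
    · simp only [h, fb]; exact hG.p2
    · simp only [h, fc]; omega
  · intro A hA
    cases A with
    | succ i k =>
      simp only [Atom.Holds] at hA ⊢
      rcases hx i with h | h <;> rcases hx k with h' | h' <;> rw [h, h'] at hA <;>
        rw [h, h']
      · omega
      · rw [fb, fc]; exact hG.s2 hA
      · omega
      · omega
    | fact i k =>
      simp only [Atom.Holds] at hA ⊢
      rcases hx i with h | h <;> rcases hx k with h' | h' <;> rw [h, h'] at hA <;>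
        rw [h, h']
      · rw [fb]; exact hG.f2 hA
      · rw [fb, fc]; exact hG.f4 hA
      · omega
      · omega
    | ndvd i k =>
      simp only [Atom.Holds] at hA ⊢
      rcases hx i with h | h <;> rcases hx k with h' | h' <;> rw [h, h'] at hA <;>
        rw [h, h']
      · exact absurd dvd_rfl hA
      · rw [fb, fc]; exact hG.d6 hA
      · rw [fc, fb]; exact hG.d3
      · exact absurd dvd_rfl hA
  · simp only [hj, fc]; exact hG.p3

theorem phi1 : Phi 1 := by
  apply phi_of
  intro x hx j hmax hj N
  have hf : f 1 = 2 := rfl
  rw [hf] at hj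
  have h1 : ∀ i : Fin 1, x i = x j := fun i => by rw [Subsingleton.elim i j]
  have q3 := fac_gt1 (show 3 ≤ x j by omega)
  refine ⟨fun _ => x j + N + 1, ⟨fun _ => by positivity, ?_⟩, by
    show N < x j + N + 1
    omega⟩
  intro A hA
  cases A with
  | succ i k =>
    simp only [Atom.Holds] at hA
    rw [h1 i, h1 k] at hA
    omega
  | fact i k =>
    simp only [Atom.Holds] at hA
    rw [h1 i, h1 k] at hA
    omega
  | ndvd i k =>
    simp only [Atom.Holds] at hA
    rw [h1 i, h1 k] at hA
    exact absurd dvd_rfl hA

theorem phi2 : Phi 2 := by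
  apply phi_of
  intro x hx j hmax hj N
  have hf : f 2 = 3 := rfl
  rw [hf] at hj
  obtain ⟨u, hu, huc, hcov⟩ : ∃ u, 0 < u ∧ u ≤ x j ∧ ∀ i, x i = u ∨ x i = x j := by
    fin_cases j
    · exact ⟨x 1, hx 1, hmax 1, fun i => by fin_cases i <;> simp⟩
    · exact ⟨x 0, hx 0, hmax 0, fun i => by fin_cases i <;> simp⟩
  obtain ⟨b, hb, hbc, hub⟩ : ∃ b, 0 < b ∧ b < x j ∧ (u = b ∨ u = x j) := by
    by_cases h : u < x j
    · exact ⟨u, hu, h, Or.inl rfl⟩
    · exact ⟨1, one_pos, by omega, Or.inr (by omega)⟩
  obtain ⟨b', c', hG⟩ := core2 N b (x j) hb hbc (by omega)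
  refine transfer2 N x b (x j) b' c' hb hbc (by omega) hG ?_ j rfl
  intro i
  rcases hcov i with h | h
  · rw [h]; exact hub
  · exact Or.inr h

theorem phi3 : Phi 3 := by
  apply phi_of
  intro x hx j hmax hj N
  have hf : f 3 = 6 := rfl
  rw [hf] at hj
  obtain ⟨u, v, hu, huc, hv, hvc, hcov⟩ : ∃ u v, 0 < u ∧ u ≤ x j ∧ 0 < v ∧ v ≤ x j ∧
      ∀ i, x i = u ∨ x i = v ∨ x i = x j := by
    fin_cases j
    · exact ⟨x 1, x 2, hx 1, hmax 1, hx 2, hmax 2, fun i => by fin_cases i <;> simp⟩
    · exact ⟨x 0, x 2, hx 0, hmax 0, hx 2, hmax 2, fun i => by fin_cases i <;> simp⟩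
    · exact ⟨x 0, x 1, hx 0, hmax 0, hx 1, hmax 1, fun i => by fin_cases i <;> simp⟩
  obtain ⟨a, b, ha, hab, hbc, hua, hvb⟩ := pick u v (x j) hu hv huc hvc (by omega)
  obtain ⟨a', b', c', hG⟩ := core3 N a b (x j) ha hab hbc (by omega)
  refine transfer3 N x a b (x j) a' b' c' ha hab hbc (by omega) hG ?_ j rfl
  intro i
  rcases hcov i with h | h | h
  · rw [h]; exact hua
  · rw [h]; exact hvb
  · exact Or.inr (Or.inr h)


lemma phi_of' {n : ℕ} (h : ∀ x : Fin n → ℕ, (∀ i, 0 < x i) → ∀ j, (∀ i, x i ≤ x j) → f n < x j →
    ∀ N : ℕ, ∃ y : Fin n → ℕ, Pres x y ∧ ∃ i, N < y i) : Phi n := by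
  intro S hfin x hx i
  by_contra hlt
  push Not at hlt
  obtain ⟨j, -, hj⟩ := Finset.exists_max_image (Finset.univ : Finset (Fin n)) x ⟨i, Finset.mem_univ _⟩
  have hj' : ∀ k, x k ≤ x j := fun k => hj k (Finset.mem_univ _)
  have hfj : f n < x j := lt_of_lt_of_le hlt (hj' i)
  obtain ⟨B, hB⟩ := (hfin.image (fun y => ∑ k, y k)).bddAbove
  obtain ⟨y, hy, k, hN⟩ := h x hx.1 j hj' hfj B
  have hyS : y ∈ Sol S := ⟨hy.1, fun A hA => hy.2 A (hx.2 A hA)⟩
  have h1 : ∑ k, y k ≤ B := hB (Set.mem_image_of_mem _ hyS)
  have h2 : y k ≤ ∑ k, y k := Finset.single_le_sum (fun _ _ => Nat.zero_le _) (Finset.mem_univ k)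
  omega

lemma fac_gt0 {b : ℕ} (hb : 3 ≤ b) : b + 2 < (Nat.factorial b) := by
  by_cases h : b = 3
  · subst h; decide
  · exact fac_gt2 (by omega)

lemma fac_gt3 {b : ℕ} (hb : 4 ≤ b) : b + 3 < (Nat.factorial b) := by
  obtain ⟨c, rfl⟩ : ∃ c, b = c + 1 := ⟨b - 1, by omega⟩
  rw [Nat.factorial_succ]
  have := fac_gt0 (show 3 ≤ c by omega)
  nlinarith

lemma fac_even {b : ℕ} (hb : 2 ≤ b) : (Nat.factorial b) % 2 = 0 := by
  have : 2 ∣ Nat.factorial b := Nat.dvd_factorial (by omega) hb
  omega

lemma fac_two {a b : ℕ} (ha : 0 < a) (hab : a < b) : 2 * (Nat.factorial a) ≤ (Nat.factorial b) := by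
  have h1 : Nat.factorial (a + 1) ≤ Nat.factorial b := Nat.factorial_le hab
  rw [Nat.factorial_succ] at h1
  have h2 := Nat.factorial_pos a
  nlinarith

lemma nda {u w k : ℕ} (h : u ∣ w) (hk : 0 < k) (hku : k < u) : ¬ u ∣ w + k := by
  intro h'
  have := (Nat.dvd_add_right h).1 h'
  have := Nat.le_of_dvd hk this
  omega

lemma nds {u w v : ℕ} (k : ℕ) (h : u ∣ w) (hk : 0 < k) (hku : k < u) (hv : v + k = w) :
    ¬ u ∣ v := by
  intro h'
  rw [← hv] at h
  have := (Nat.dvd_add_right h').1 h
  have := Nat.le_of_dvd hk this
  omega

lemma ndp {u p : ℕ} (hp : p.Prime) (h1 : 2 ≤ u) (h2 : u < p) : ¬ u ∣ p := by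
  intro h
  rcases (Nat.dvd_prime hp).1 h with h | h <;> omega

lemma ndf {m p : ℕ} (hp : p.Prime) (h : m < p) : ¬ p ∣ Nat.factorial m := by
  intro h'
  have := (Nat.Prime.dvd_factorial hp).1 h'
  omega

/-- the product of two distinct numbers divides a factorial -/
lemma mul_dvd_fac {x y m : ℕ} (hx : 0 < x) (hxy : x < y) (hy : y ≤ m) : x * y ∣ Nat.factorial m := by
  refine dvd_trans ?_ (Nat.factorial_dvd_factorial hy)
  obtain ⟨z, rfl⟩ : ∃ z, y = z + 1 := ⟨y - 1, by omega⟩
  rw [Nat.factorial_succ, mul_comm]
  exact mul_dvd_mul_left _ (Nat.dvd_factorial hx (by omega))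

/-- an even number `≥ 6` divides the factorial of its half -/
lemma even_dvd {k m : ℕ} (hk : 3 ≤ k) (h : k ≤ m) : 2 * k ∣ Nat.factorial m :=
  mul_dvd_fac (by omega) (by omega) h

lemma prime_of_ndvd {n : ℕ} (hn : 5 ≤ n) (h : ¬ n ∣ Nat.factorial (n - 1)) : n.Prime := by
  by_contra hp
  apply h
  obtain ⟨x, hx⟩ := Nat.minFac_dvd n
  have h1 : n.minFac.Prime := Nat.minFac_prime (by omega)
  have h2 := h1.two_le
  have hle : n.minFac ^ 2 ≤ n := Nat.minFac_sq_le_self (by omega) hp
  set q := n.minFac with hq
  have hqx : q ≤ x := by
    have : q * q ≤ q * x := by rw [← hx]; nlinarith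
    exact Nat.le_of_mul_le_mul_left this (by omega)
  have hx2 : 2 ≤ x := le_trans h2 hqx
  rcases Nat.lt_or_ge q x with hlt | hge
  · have hxn : x ≤ n - 1 := by
      have : 2 * x ≤ n := by rw [hx]; exact Nat.mul_le_mul_right _ h2
      omega
    have := mul_dvd_fac (show 0 < q by omega) hlt hxn
    rwa [← hx] at this
  · have hxq : x = q := le_antisymm hge hqx
    have hn2 : n = q * q := by rw [hxq] at hx; exact hx
    have hq3 : 3 ≤ q := by
      by_contra hcon
      have : q = 2 := by omega
      rw [this] at hn2
      omega
    have h4 : q * (2 * q) ∣ Nat.factorial (n - 1) :=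
      mul_dvd_fac (by omega) (by omega) (by
        have : 3 * q ≤ n := by rw [hn2]; exact Nat.mul_le_mul_right _ hq3
        omega)
    refine dvd_trans ?_ h4
    nth_rw 1 [hn2]
    exact mul_dvd_mul_left _ (Dvd.intro_left 2 rfl)

lemma wilson_dvd {p : ℕ} (hp : p.Prime) : p ∣ Nat.factorial (p - 1) + 1 := by
  have := Fact.mk hp
  have h := ZMod.wilsons_lemma p
  have h2 : ((Nat.factorial (p - 1) + 1 : ℕ) : ZMod p) = 0 := by
    push_cast
    rw [h]
    ring
  exact (ZMod.natCast_eq_zero_iff _ _).1 h2

/-- as `Good`, with sizes and parities kept -/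
structure Good3 (N a b c a' b' c' : ℕ) : Prop where
  s1 : a + 1 = b → a' + 1 = b'
  s2 : b + 1 = c → b' + 1 = c'
  f1 : (Nat.factorial a) = a → (Nat.factorial a') = a'
  f2 : (Nat.factorial b) = b → (Nat.factorial b') = b'
  f3 : (Nat.factorial a) = b → (Nat.factorial a') = b'
  f4 : (Nat.factorial b) = c → (Nat.factorial b') = c'
  f5 : (Nat.factorial a) = c → (Nat.factorial a') = c'
  d1 : ¬ b' ∣ a'
  d2 : ¬ c' ∣ a'
  d3 : ¬ c' ∣ b'
  d4 : ¬ a ∣ b → ¬ a' ∣ b'
  d5 : ¬ a ∣ c → ¬ a' ∣ c'
  d6 : ¬ b ∣ c → ¬ b' ∣ c'
  p1 : 0 < a'
  p2 : 0 < b'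
  p3 : N < c'
  ga : min a 3 ≤ a'
  gb : min b 3 ≤ b'
  gc : min c 3 ≤ c'
  qa : a % 2 = 1 → a' % 2 = 1
  qb : b % 2 = 1 → b' % 2 = 1
  qc : c % 2 = 1 → c' % 2 = 1

lemma core3p (N a b c : ℕ) (ha : 0 < a) (hab : a < b) (hbc : b < c) (hc : 7 ≤ c) :
    ∃ a' b' c', Good3 N a b c a' b' c' := by
  have ffact : ∀ {m : ℕ}, 3 ≤ m → (Nat.factorial m) ≠ m := fun {m} hm => by have := fac_gt1 hm; omega
  have small : ∀ {m : ℕ}, m ≤ 3 → (Nat.factorial m) ≤ 6 := fun {m} hm => by
    calc (Nat.factorial m) ≤ (Nat.factorial 3) := Nat.factorial_le hm
      _ = 6 := rfl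
  have ea : 2 ≤ a → Nat.factorial a % 2 = 0 := fac_even
  have eb : 2 ≤ b → Nat.factorial b % 2 = 0 := fac_even
  have za : a < 2 → Nat.factorial a = 1 := fun h => by
    have : a = 1 := by omega
    rw [this]; rfl
  by_cases h2 : b + 1 = c
  · -- `c = b + 1`
    have hb6 : 6 ≤ b := by omega
    by_cases h1 : a + 1 = b
    · obtain ⟨m, hm, hm2⟩ : ∃ m, N + 3 ≤ m ∧ m % 2 = a % 2 := ⟨2 * (N + 3) + a % 2, by omega, by omega⟩
      have em := fac_even (show 2 ≤ m by omega)
      refine ⟨m, m + 1, m + 2, ?_⟩
      have g1 := fac_gt1 (show 3 ≤ a by omega)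
      have g2 := fac_gt2 (show 4 ≤ a by omega)
      have g3 := fac_gt1 (show 3 ≤ b by omega)
      exact { s1 := fun _ => rfl, s2 := fun _ => rfl, f1 := fun h => by omega, f2 := fun h => by omega,
              f3 := fun h => by omega, f4 := fun h => by omega, f5 := fun h => by omega,
              d1 := nd (by omega) (by omega), d2 := nd (by omega) (by omega),
              d3 := nd (by omega) (by omega), d4 := fun _ => not_dvd_succ (by omega),
              d5 := fun _ h => by
                have h' := (Nat.dvd_add_right (dvd_refl m)).1 h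
                have := Nat.le_of_dvd (by norm_num) h'
                omega
              d6 := fun _ => not_dvd_succ (by omega), p1 := by omega, p2 := by omega,
              p3 := by omega, ga := by omega, gb := by omega, gc := by omega, qa := by omega, qb := by omega, qc := by omega }
    · by_cases h3 : (Nat.factorial a) = b
      · obtain ⟨m, hm, hm2⟩ : ∃ m, N + 3 ≤ m ∧ m % 2 = a % 2 := ⟨2 * (N + 3) + a % 2, by omega, by omega⟩
        have em := fac_even (show 2 ≤ m by omega)
        have g1 := fac_gt1 (show 3 ≤ m by omega)
        have g3 := fac_gt1 (show 3 ≤ b by omega)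
        refine ⟨m, (Nat.factorial m), (Nat.factorial m) + 1, ?_⟩
        exact { s1 := fun h => absurd h h1, s2 := fun _ => rfl, f1 := fun h => by omega,
                f2 := fun h => by omega, f3 := fun _ => rfl, f4 := fun h => by omega,
                f5 := fun h => by omega, d1 := nd (by omega) (by omega),
                d2 := nd (by omega) (by omega), d3 := nd (by omega) (by omega),
                d4 := fun h => absurd (by rw [← h3]; exact Nat.dvd_factorial ha le_rfl) h,
                d5 := fun _ h => by
                  have h' := (Nat.dvd_add_right (Nat.dvd_factorial (by omega) le_rfl)).1 h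
                  have := Nat.le_of_dvd one_pos h'
                  omega
                d6 := fun _ => not_dvd_succ (by omega), p1 := by omega, p2 := by omega,
                p3 := by omega, ga := by omega, gb := by omega, gc := by omega, qa := by omega, qb := by omega, qc := by omega }
      · by_cases h5 : (Nat.factorial a) = c
        · have ha4 : 4 ≤ a := by
            by_contra hcon
            have := small (show a ≤ 3 by omega)
            omega
          obtain ⟨m, hm, hm2⟩ : ∃ m, N + 4 ≤ m ∧ m % 2 = a % 2 := ⟨2 * (N + 4) + a % 2, by omega, by omega⟩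
          have em := fac_even (show 2 ≤ m by omega)
          have g1 := fac_gt2 (show 4 ≤ m by omega)
          have g3 := fac_gt1 (show 3 ≤ b by omega)
          have g4 := fac_gt1 (show 3 ≤ a by omega)
          refine ⟨m, (Nat.factorial m) - 1, (Nat.factorial m), ?_⟩
          exact { s1 := fun h => absurd h h1, s2 := fun _ => by omega, f1 := fun h => by omega,
                  f2 := fun h => by omega, f3 := fun h => absurd h h3, f4 := fun h => by omega,
                  f5 := fun _ => rfl, d1 := nd (by omega) (by omega),
                  d2 := nd (by omega) (by omega), d3 := nd (by omega) (by omega),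
                  d4 := fun _ h => by
                    have h6 : m ∣ (Nat.factorial m) := Nat.dvd_factorial (by omega) le_rfl
                    have h7 : (Nat.factorial m) = ((Nat.factorial m) - 1) + 1 := by omega
                    rw [h7] at h6
                    have h' := (Nat.dvd_add_right h).1 h6
                    have := Nat.le_of_dvd one_pos h'
                    omega
                  d5 := fun h => absurd (by rw [← h5]; exact Nat.dvd_factorial ha le_rfl) h,
                  d6 := fun _ h => by
                    have h7 : (Nat.factorial m) = ((Nat.factorial m) - 1) + 1 := by omega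
                    generalize hw : (Nat.factorial m) - 1 = w at h h7
                    rw [h7] at h
                    exact not_dvd_succ (show 2 ≤ w by omega) h
                  p1 := by omega, p2 := by omega, p3 := by omega, ga := by omega, gb := by omega, gc := by omega, qa := by omega, qb := by omega, qc := by omega }
        · obtain ⟨t, ht, ht2⟩ : ∃ t, N + 1 ≤ t ∧ t % 2 = 0 := ⟨2 * (N + 1), by omega, by omega⟩
          have hev : ∀ z, (t * z) % 2 = 0 := fun z => by rw [Nat.mul_mod, ht2]; simp
          have ev1 := hev a
          have ev2 : (t * b * a) % 2 = 0 := by rw [mul_assoc]; exact hev _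
          have hta : t ≤ t * a := Nat.le_mul_of_pos_right _ ha
          have g3 := fac_gt1 (show 3 ≤ b by omega)
          refine ⟨a, b + t * a, c + t * a, ?_⟩
          exact { s1 := fun h => absurd h h1, s2 := fun _ => by omega, f1 := fun h => h,
                  f2 := fun h => by omega, f3 := fun h => absurd h h3, f4 := fun h => by omega,
                  f5 := fun h => absurd h h5, d1 := nd (by omega) (by omega),
                  d2 := nd (by omega) (by omega), d3 := nd (by omega) (by omega),
                  d4 := nd_shift, d5 := nd_shift,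
                  d6 := fun _ => by
                    have : c + t * a = (b + t * a) + 1 := by omega
                    rw [this]; exact not_dvd_succ (by omega)
                  p1 := ha, p2 := by omega, p3 := by omega, ga := by omega, gb := by omega, gc := by omega, qa := by omega, qb := by omega, qc := by omega }
  · by_cases h4 : (Nat.factorial b) = c
    · -- `c = b!`
      have hb4 : 4 ≤ b := by
        by_contra hcon
        have := small (show b ≤ 3 by omega)
        omega
      have g3 := fac_gt1 (show 3 ≤ b by omega)
      have hacc : a ∣ c := by rw [← h4]; exact Nat.dvd_factorial ha hab.le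
      have hbcc : b ∣ c := by rw [← h4]; exact Nat.dvd_factorial (by omega) le_rfl
      have hnac : (Nat.factorial a) ≠ c := by
        intro h
        rw [← h4] at h
        by_cases ha3 : a < 2
        · have : (Nat.factorial a) ≤ (Nat.factorial 1) := Nat.factorial_le (by omega)
          simp at this
          omega
        · exact absurd ((Nat.factorial_inj (by omega)).1 h) (by omega)
      by_cases h1 : a + 1 = b
      · obtain ⟨m, hm, hm2⟩ : ∃ m, N + 3 ≤ m ∧ m % 2 = a % 2 := ⟨2 * (N + 3) + a % 2, by omega, by omega⟩
        have em := fac_even (show 2 ≤ m by omega)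
        have g1 := fac_gt1 (show 3 ≤ m + 1 by omega)
        have g4 := fac_gt1 (show 3 ≤ a by omega)
        refine ⟨m, m + 1, (Nat.factorial (m + 1)), ?_⟩
        exact { s1 := fun _ => rfl, s2 := fun h => absurd h h2, f1 := fun h => by omega,
                f2 := fun h => by omega, f3 := fun h => by omega, f4 := fun _ => rfl,
                f5 := fun h => absurd h hnac, d1 := nd (by omega) (by omega),
                d2 := nd (by omega) (by omega), d3 := nd (by omega) (by omega),
                d4 := fun _ => not_dvd_succ (by omega), d5 := fun h => absurd hacc h,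
                d6 := fun h => absurd hbcc h, p1 := by omega, p2 := by omega, p3 := by omega, ga := by omega, gb := by omega, gc := by omega, qa := by omega, qb := by omega, qc := by omega }
      · by_cases h3 : (Nat.factorial a) = b
        · obtain ⟨m, hm, hm2⟩ : ∃ m, N + 3 ≤ m ∧ m % 2 = a % 2 := ⟨2 * (N + 3) + a % 2, by omega, by omega⟩
          have em := fac_even (show 2 ≤ m by omega)
          have g1 := fac_gt1 (show 3 ≤ m by omega)
          have g5 := fac_gt1 (show 3 ≤ (Nat.factorial m) by omega)
          have ha3 : 3 ≤ a := by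
            by_contra hcon
            have : (Nat.factorial a) ≤ (Nat.factorial 2) := Nat.factorial_le (by omega)
            simp at this
            omega
          have g4 := fac_gt1 ha3
          refine ⟨m, (Nat.factorial m), (Nat.factorial (Nat.factorial m)), ?_⟩
          exact { s1 := fun h => absurd h h1, s2 := fun h => absurd h h2, f1 := fun h => by omega,
                  f2 := fun h => by omega, f3 := fun _ => rfl, f4 := fun _ => rfl,
                  f5 := fun h => absurd h hnac, d1 := nd (by omega) (by omega),
                  d2 := nd (by omega) (by omega), d3 := nd (by omega) (by omega),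
                  d4 := fun h => absurd (by rw [← h3]; exact Nat.dvd_factorial ha le_rfl) h,
                  d5 := fun h => absurd hacc h,
                  d6 := fun h => absurd hbcc h, p1 := by omega, p2 := by omega, p3 := by omega, ga := by omega, gb := by omega, gc := by omega, qa := by omega, qb := by omega, qc := by omega }
        · obtain ⟨t, ht, ht2⟩ : ∃ t, N + 1 ≤ t ∧ t % 2 = 0 := ⟨2 * (N + 1), by omega, by omega⟩
          have hev : ∀ z, (t * z) % 2 = 0 := fun z => by rw [Nat.mul_mod, ht2]; simp
          have ev1 := hev a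
          have ev2 : (t * b * a) % 2 = 0 := by rw [mul_assoc]; exact hev _
          have hta : t ≤ t * a := Nat.le_mul_of_pos_right _ ha
          have g5 := fac_gt1 (show 3 ≤ b + t * a by omega)
          refine ⟨a, b + t * a, (Nat.factorial (b + t * a)), ?_⟩
          exact { s1 := fun h => absurd h h1, s2 := fun h => absurd h h2, f1 := fun h => h,
                  f2 := fun h => by omega, f3 := fun h => absurd h h3, f4 := fun _ => rfl,
                  f5 := fun h => absurd h hnac, d1 := nd (by omega) (by omega),
                  d2 := nd (by omega) (by omega), d3 := nd (by omega) (by omega),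
                  d4 := nd_shift, d5 := fun h => absurd hacc h,
                  d6 := fun h => absurd hbcc h, p1 := ha, p2 := by omega, p3 := by omega, ga := by omega, gb := by omega, gc := by omega, qa := by omega, qb := by omega, qc := by omega }
    · by_cases h5 : (Nat.factorial a) = c
      · -- `c = a!`
        have ha4 : 4 ≤ a := by
          by_contra hcon
          have := small (show a ≤ 3 by omega)
          omega
        have g4 := fac_gt1 (show 3 ≤ a by omega)
        have g3 := fac_gt1 (show 3 ≤ b by omega)
        have hacc : a ∣ c := by rw [← h5]; exact Nat.dvd_factorial ha le_rfl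
        by_cases h1 : a + 1 = b
        · by_cases hpar : a % 2 = 1
          · obtain ⟨m, hm, hm2⟩ : ∃ m, N + 4 ≤ m ∧ m % 2 = a % 2 := ⟨2 * (N + 4) + a % 2, by omega, by omega⟩
            have em := fac_even (show 2 ≤ m by omega)
            have g1 := fac_gt2 (show 4 ≤ m by omega)
            refine ⟨m, m + 1, Nat.factorial m, ?_⟩
            exact { s1 := fun _ => rfl, s2 := fun h => absurd h h2, f1 := fun h => by omega,
                    f2 := fun h => by omega, f3 := fun h => by omega, f4 := fun h => absurd h h4,
                    f5 := fun _ => rfl, d1 := nd (by omega) (by omega),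
                    d2 := nd (by omega) (by omega), d3 := nd (by omega) (by omega),
                    d4 := fun _ => not_dvd_succ (by omega)
                    d5 := fun h => absurd hacc h,
                    d6 := fun h => absurd (by
                      have hk : b = 2 * (b / 2) := by omega
                      rw [hk, ← h5]
                      exact even_dvd (by omega) (by omega)) h
                    p1 := by omega, p2 := by omega, p3 := by omega, ga := by omega, gb := by omega, gc := by omega, qa := by omega, qb := by omega, qc := by omega }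
          · obtain ⟨p, hpN, hp⟩ := Nat.exists_infinite_primes (N + 6)
            have g1 := fac_gt1 (show 3 ≤ p - 1 by omega)
            have hpo : p % 2 = 1 := hp.eq_two_or_odd.resolve_left (by omega)
            refine ⟨p - 1, p, (Nat.factorial (p - 1)), ?_⟩
            exact { s1 := fun _ => by omega, s2 := fun h => absurd h h2, f1 := fun h => by omega,
                    f2 := fun h => by omega, f3 := fun h => by omega, f4 := fun h => absurd h h4,
                    f5 := fun _ => rfl, d1 := nd (by omega) (by omega),
                    d2 := nd (by omega) (by omega), d3 := nd (by omega) (by omega),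
                    d4 := fun _ => ndp hp (by omega) (by omega)
                    d5 := fun h => absurd hacc h,
                    d6 := fun _ => ndf hp (by omega)
                    p1 := by omega, p2 := by omega, p3 := by omega, ga := by omega, gb := by omega, gc := by omega, qa := by omega, qb := by omega, qc := by omega }
        · obtain ⟨m, hm, hm2⟩ : ∃ m, N + 4 ≤ m ∧ m % 2 = a % 2 := ⟨2 * (N + 4) + a % 2, by omega, by omega⟩
          have em := fac_even (show 2 ≤ m by omega)
          have g1 := fac_gt1 (show 3 ≤ m by omega)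
          obtain ⟨p, hpN, hp⟩ := Nat.exists_infinite_primes ((Nat.factorial m) + 1)
          have hpo : p % 2 = 1 := hp.eq_two_or_odd.resolve_left (by omega)
          refine ⟨m, p, (Nat.factorial m), ?_⟩
          exact { s1 := fun h => absurd h h1, s2 := fun h => absurd h h2, f1 := fun h => by omega,
                  f2 := fun h => by omega, f3 := fun h => by omega, f4 := fun h => absurd h h4,
                  f5 := fun _ => rfl, d1 := nd (by omega) (by omega),
                  d2 := nd (by omega) (by omega),
                  d3 := fun h => by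
                    rcases (Nat.dvd_prime hp).1 h with h | h <;> omega
                  d4 := fun _ h => by
                    rcases (Nat.dvd_prime hp).1 h with h | h <;> omega
                  d5 := fun h => absurd hacc h,
                  d6 := fun _ h => by
                    have := (Nat.Prime.dvd_factorial hp).1 h
                    omega
                  p1 := by omega, p2 := by omega, p3 := by omega, ga := by omega, gb := by omega, gc := by omega, qa := by omega, qb := by omega, qc := by omega }
      · obtain ⟨t, ht, ht2⟩ : ∃ t, N + 1 ≤ t ∧ t % 2 = 0 := ⟨2 * (N + 1), by omega, by omega⟩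
        have hev : ∀ z, (t * z) % 2 = 0 := fun z => by rw [Nat.mul_mod, ht2]; simp
        have ev1 := hev a
        have ev2 : (t * b * a) % 2 = 0 := by rw [mul_assoc]; exact hev _
        have hta : t ≤ t * b * a := by
          calc t ≤ t * b := Nat.le_mul_of_pos_right _ (by omega)
            _ ≤ t * b * a := Nat.le_mul_of_pos_right _ ha
        have e : t * b * a = t * a * b := by ring
        refine ⟨a, b, c + t * b * a, ?_⟩
        exact { s1 := fun h => h, s2 := fun h => absurd h h2, f1 := fun h => h, f2 := fun h => h,
                f3 := fun h => h, f4 := fun h => absurd h h4, f5 := fun h => absurd h h5,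
                d1 := nd (by omega) (by omega), d2 := nd (by omega) (by omega),
                d3 := nd (by omega) (by omega), d4 := fun h => h, d5 := nd_shift,
                d6 := fun h => by rw [e]; exact nd_shift h
                p1 := ha, p2 := by omega, p3 := by omega, ga := by omega, gb := by omega, gc := by omega, qa := by omega, qb := by omega, qc := by omega }


/-- the conditions for four values `a < b < c < d` -/
structure Good4 (N a b c d a' b' c' d' : ℕ) : Prop where
  s1 : a + 1 = b → a' + 1 = b'
  s2 : b + 1 = c → b' + 1 = c'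
  s3 : c + 1 = d → c' + 1 = d'
  fa : Nat.factorial a = a → Nat.factorial a' = a'
  fb : Nat.factorial b = b → Nat.factorial b' = b'
  fc : Nat.factorial c = c → Nat.factorial c' = c'
  fab : Nat.factorial a = b → Nat.factorial a' = b'
  fac : Nat.factorial a = c → Nat.factorial a' = c'
  fad : Nat.factorial a = d → Nat.factorial a' = d'
  fbc : Nat.factorial b = c → Nat.factorial b' = c'
  fbd : Nat.factorial b = d → Nat.factorial b' = d'
  fcd : Nat.factorial c = d → Nat.factorial c' = d'
  dba : ¬ b' ∣ a'
  dca : ¬ c' ∣ a'
  dda : ¬ d' ∣ a'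
  dcb : ¬ c' ∣ b'
  ddb : ¬ d' ∣ b'
  ddc : ¬ d' ∣ c'
  uab : ¬ a ∣ b → ¬ a' ∣ b'
  uac : ¬ a ∣ c → ¬ a' ∣ c'
  uad : ¬ a ∣ d → ¬ a' ∣ d'
  ubc : ¬ b ∣ c → ¬ b' ∣ c'
  ubd : ¬ b ∣ d → ¬ b' ∣ d'
  ucd : ¬ c ∣ d → ¬ c' ∣ d'
  pa : 0 < a'
  pb : 0 < b'
  pc : 0 < c'
  pd : 0 < d'
  big : N < a' ∨ N < b' ∨ N < c' ∨ N < d'

/-- the largest value occurs in no equation -/
lemma freeD (N a b c d : ℕ) (ha : 0 < a) (hab : a < b) (hbc : b < c) (hcd : c < d)
    (h1 : ¬ c + 1 = d) (h2 : ¬ Nat.factorial a = d) (h3 : ¬ Nat.factorial b = d)
    (h4 : ¬ Nat.factorial c = d) : ∃ a' b' c' d', Good4 N a b c d a' b' c' d' := by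
  have hpos : 1 ≤ a * b * c := by
    have : 0 < b := by omega
    have : 0 < c := by omega
    exact Nat.succ_le_of_lt (by positivity)
  have hb : N + 1 ≤ (N + 1) * (a * b * c) := Nat.le_mul_of_pos_right _ hpos
  have e1 : (N + 1) * (a * b * c) = (N + 1) * (b * c) * a := by ring
  have e2 : (N + 1) * (a * b * c) = (N + 1) * (a * c) * b := by ring
  have e3 : (N + 1) * (a * b * c) = (N + 1) * (a * b) * c := by ring
  refine ⟨a, b, c, d + (N + 1) * (a * b * c), ?_⟩
  exact { s1 := id, s2 := id, s3 := fun h => absurd h h1, fa := id, fb := id, fc := id, fab := id,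
          fac := id, fad := fun h => absurd h h2, fbc := id, fbd := fun h => absurd h h3,
          fcd := fun h => absurd h h4, dba := nd (by omega) (by omega),
          dca := nd (by omega) (by omega), dda := nd (by omega) (by omega),
          dcb := nd (by omega) (by omega), ddb := nd (by omega) (by omega),
          ddc := nd (by omega) (by omega), uab := id, uac := id,
          uad := fun h => by rw [e1]; exact nd_shift h
          ubc := id
          ubd := fun h => by rw [e2]; exact nd_shift h
          ucd := fun h => by rw [e3]; exact nd_shift h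
          pa := ha, pb := by omega, pc := by omega, pd := by omega, big := by omega }

/-- `a` occurs in no equation with another value -/
lemma freeA (N a b c d : ℕ) (ha : 0 < a) (hab : a < b) (hbc : b < c) (hcd : c < d)
    (hd : 720 < d) (h1 : ¬ a + 1 = b) (h2 : ¬ Nat.factorial a = b) (h3 : ¬ Nat.factorial a = c)
    (h4 : ¬ Nat.factorial a = d) : ∃ a' b' c' d', Good4 N a b c d a' b' c' d' := by
  obtain ⟨b', c', d', G⟩ := core3p N b c d (by omega) hbc hcd (by omega)
  have g1 := G.ga
  have g2 := G.gb
  have g3 := G.gc
  have g4 := fac_gt1 (show 3 ≤ c by omega)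
  have hp3 := G.p3
  by_cases h : a ≤ 2
  · have hodd : ∀ {u u' : ℕ}, (u % 2 = 1 → u' % 2 = 1) → ¬ a ∣ u → ¬ a ∣ u' := by
      intro u u' hu hn hn'
      have ha2 : a = 2 := by
        by_contra hcon
        have : a = 1 := by omega
        subst this
        exact hn (one_dvd _)
      subst ha2
      have := hu (by omega)
      omega
    refine ⟨a, b', c', d', ?_⟩
    exact { s1 := fun h => absurd h h1, s2 := G.s1, s3 := G.s2, fa := id, fb := G.f1, fc := G.f2,
            fab := fun h => absurd h h2, fac := fun h => absurd h h3,
            fad := fun h => absurd h h4, fbc := G.f3, fbd := G.f5, fcd := G.f4,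
            dba := nd (by omega) (by omega), dca := nd (by omega) (by omega),
            dda := nd (by omega) (by omega), dcb := G.d1, ddb := G.d2, ddc := G.d3,
            uab := hodd G.qa, uac := hodd G.qb, uad := hodd G.qc, ubc := G.d4, ubd := G.d5,
            ucd := G.d6, pa := ha, pb := G.p1, pc := G.p2, pd := by omega, big := by omega }
  · obtain ⟨p, hpN, hp⟩ := Nat.exists_infinite_primes (b' + c' + d' + N + 1)
    have g5 := fac_gt1 (show 3 ≤ a by omega)
    refine ⟨p, b', c', d', ?_⟩
    exact { s1 := fun h => absurd h h1, s2 := G.s1, s3 := G.s2, fa := fun h => by omega,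
            fb := G.f1, fc := G.f2,
            fab := fun h => absurd h h2, fac := fun h => absurd h h3,
            fad := fun h => absurd h h4, fbc := G.f3, fbd := G.f5, fcd := G.f4,
            dba := ndp hp (by omega) (by omega), dca := ndp hp (by omega) (by omega),
            dda := ndp hp (by omega) (by omega), dcb := G.d1, ddb := G.d2, ddc := G.d3,
            uab := fun _ => nd (by omega) (by omega), uac := fun _ => nd (by omega) (by omega),
            uad := fun _ => nd (by omega) (by omega), ubc := G.d4, ubd := G.d5,
            ucd := G.d6, pa := by omega, pb := G.p1, pc := G.p2, pd := by omega,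
            big := by omega }

/-- `b` occurs in no equation with another value -/
lemma freeB (N a b c d : ℕ) (ha : 0 < a) (hab : a < b) (hbc : b < c) (hcd : c < d)
    (hd : 720 < d) (h1 : ¬ a + 1 = b) (h2 : ¬ b + 1 = c) (h3 : ¬ Nat.factorial a = b)
    (h4 : ¬ Nat.factorial b = c) (h5 : ¬ Nat.factorial b = d) :
    ∃ a' b' c' d', Good4 N a b c d a' b' c' d' := by
  obtain ⟨a', c', d', G⟩ := core3p N a c d ha (by omega) hcd (by omega)
  have g1 := G.ga
  have g2 := G.gb
  have g3 := G.gc
  have hp3 := G.p3
  have g5 := fac_gt1 (show 3 ≤ b by omega)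
  have gp1 := G.p1
  have gd1 := G.d1
  have gd2 := G.d2
  obtain ⟨p, hpN, hp⟩ := Nat.exists_infinite_primes (a' + c' + d' + N + 1)
  have hc3 : 2 ≤ c' := by omega
  have hd3 : 2 ≤ d' := by omega
  refine ⟨a', p, c', d', ?_⟩
  exact { s1 := fun h => absurd h h1, s2 := fun h => absurd h h2, s3 := G.s2, fa := G.f1,
          fb := fun h => by omega, fc := G.f2,
          fab := fun h => absurd h h3, fac := G.f3,
          fad := G.f5, fbc := fun h => absurd h h4, fbd := fun h => absurd h h5, fcd := G.f4,
          dba := nd (by omega) (by omega), dca := G.d1,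
          dda := G.d2, dcb := ndp hp (by omega) (by omega), ddb := ndp hp (by omega) (by omega),
          ddc := G.d3,
          uab := fun hn => ndp hp (by
            by_contra hcon
            have : a = 1 := by omega
            subst this
            exact hn (one_dvd _)) (by omega)
          uac := G.d4, uad := G.d5, ubc := fun _ => nd (by omega) (by omega),
          ubd := fun _ => nd (by omega) (by omega),
          ucd := G.d6, pa := by omega, pb := by omega, pc := by omega, pd := by omega,
          big := by omega }

/-- `c` occurs in no equation with another value -/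
lemma freeC (N a b c d : ℕ) (ha : 0 < a) (hab : a < b) (hbc : b < c) (hcd : c < d)
    (hd : 720 < d) (h1 : ¬ b + 1 = c) (h2 : ¬ c + 1 = d) (h3 : ¬ Nat.factorial a = c)
    (h4 : ¬ Nat.factorial b = c) (h5 : ¬ Nat.factorial c = d) :
    ∃ a' b' c' d', Good4 N a b c d a' b' c' d' := by
  obtain ⟨a', b', d', G⟩ := core3p N a b d ha hab (by omega) (by omega)
  have g1 := G.ga
  have g2 := G.gb
  have g3 := G.gc
  have hp3 := G.p3
  have g5 := fac_gt1 (show 3 ≤ c by omega)
  have gp1 := G.p1
  obtain ⟨p, hpN, hp⟩ := Nat.exists_infinite_primes (a' + b' + d' + N + 1)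
  refine ⟨a', b', p, d', ?_⟩
  exact { s1 := G.s1, s2 := fun h => absurd h h1, s3 := fun h => absurd h h2, fa := G.f1,
          fb := G.f2, fc := fun h => by omega,
          fab := G.f3, fac := fun h => absurd h h3,
          fad := G.f5, fbc := fun h => absurd h h4, fbd := G.f4, fcd := fun h => absurd h h5,
          dba := G.d1, dca := nd (by omega) (by omega),
          dda := G.d2, dcb := nd (by omega) (by omega), ddb := G.d3,
          ddc := ndp hp (by omega) (by omega),
          uab := G.d4
          uac := fun hn => ndp hp (by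
            by_contra hcon
            have : a = 1 := by omega
            subst this
            exact hn (one_dvd _)) (by omega)
          uad := G.d5, ubc := fun _ => ndp hp (by omega) (by omega),
          ubd := G.d6,
          ucd := fun _ => nd (by omega) (by omega), pa := by omega, pb := by omega,
          pc := by omega, pd := by omega,
          big := by omega }

lemma ndl {u v : ℕ} (h1 : u < v) (h2 : v < 2 * u) : ¬ u ∣ v := by
  rintro ⟨k, rfl⟩
  rcases Nat.lt_or_ge k 2 with h | h
  · have : k = 0 ∨ k = 1 := by omega
    rcases this with rfl | rfl <;> omega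
  · have : 2 * u ≤ u * k := by rw [mul_comm 2 u]; exact Nat.mul_le_mul_left _ h
    omega

lemma caseAd (N a b c d : ℕ) (ha : 0 < a)
    (hab : a < b) (hbc : b < c) (hcd : c < d) (hd : 720 < d)
    (hA : ¬ (¬ a + 1 = b ∧ ¬ Nat.factorial a = b ∧ ¬ Nat.factorial a = c ∧ ¬ Nat.factorial a = d))
    (hB : ¬ (¬ a + 1 = b ∧ ¬ b + 1 = c ∧ ¬ Nat.factorial a = b ∧ ¬ Nat.factorial b = c ∧
      ¬ Nat.factorial b = d))
    (hC : ¬ (¬ b + 1 = c ∧ ¬ c + 1 = d ∧ ¬ Nat.factorial a = c ∧ ¬ Nat.factorial b = c ∧
      ¬ Nat.factorial c = d))
    (hD : ¬ (¬ c + 1 = d ∧ ¬ Nat.factorial a = d ∧ ¬ Nat.factorial b = d ∧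
      ¬ Nat.factorial c = d))
    (hFad : Nat.factorial a = d) :
    ∃ a' b' c' d', Good4 N a b c d a' b' c' d' := by
  -- facts on the given numbers
  have m1 := fac_two ha hab
  have m2 := fac_two (show 0 < b by omega) hbc
  have q1 := Nat.self_le_factorial a
  have q2 := Nat.self_le_factorial b
  have q3 := Nat.self_le_factorial c
  have a2 : 3 ≤ a → a + 2 < Nat.factorial a := fac_gt0
  have a3 : 4 ≤ a → a + 3 < Nat.factorial a := fac_gt3
  have b2 : 3 ≤ b → b + 2 < Nat.factorial b := fac_gt0
  have b3 : 4 ≤ b → b + 3 < Nat.factorial b := fac_gt3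
  have c2 : 3 ≤ c → c + 2 < Nat.factorial c := fac_gt0
  have c3 : 4 ≤ c → c + 3 < Nat.factorial c := fac_gt3
  have s2 : ∀ {u : ℕ}, u ≤ 2 → Nat.factorial u ≤ 2 := fun {u} h => by
    have := Nat.factorial_le h; simpa using this
  have s3 : ∀ {u : ℕ}, u ≤ 3 → Nat.factorial u ≤ 6 := fun {u} h => by
    have := Nat.factorial_le h
    calc Nat.factorial u ≤ Nat.factorial 3 := this
      _ = 6 := rfl
  have s6 : ∀ {u : ℕ}, u ≤ 6 → Nat.factorial u ≤ 720 := fun {u} h => by
    have := Nat.factorial_le h
    calc Nat.factorial u ≤ Nat.factorial 6 := this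
      _ = 720 := rfl
  have sa2 : a ≤ 2 → Nat.factorial a ≤ 2 := s2
  have sb2 : b ≤ 2 → Nat.factorial b ≤ 2 := s2
  have sc2 : c ≤ 2 → Nat.factorial c ≤ 2 := s2
  have sa3 : a ≤ 3 → Nat.factorial a ≤ 6 := s3
  have sb3 : b ≤ 3 → Nat.factorial b ≤ 6 := s3
  have sc3 : c ≤ 3 → Nat.factorial c ≤ 6 := s3
  have sa6 : a ≤ 6 → Nat.factorial a ≤ 720 := s6
  have sb6 : b ≤ 6 → Nat.factorial b ≤ 720 := s6
  have sc6 : c ≤ 6 → Nat.factorial c ≤ 720 := s6
  have ha7 : 7 ≤ a := by omega
  by_cases hSab : a + 1 = b
  · by_cases hSbc : b + 1 = c
    · -- (m, m+1, m+2, m!)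
      have A' := a3 (by omega)
      have A := a2 (by omega)
      have B := b3 (by omega)
      have C := c3 (by omega)
      have ha3 : 3 ≤ a := by omega
      clear a2 a3 b2 b3 c2 c3 s2 s3 s6 sa2 sb2 sc2 sa3 sb3 sc3 sa6 sb6 sc6 hA hB hC hD
      by_cases hpar : a % 2 = 1
      · have hbd : b ∣ d := by
          rw [← hFad, show b = 2 * (b / 2) by omega]
          exact even_dvd (by omega) (by omega)
        obtain ⟨p, hpN, hp⟩ := Nat.exists_infinite_primes (N + 20)
        obtain ⟨q, rfl⟩ : ∃ q, p = q + 2 := ⟨p - 2, by omega⟩
        have g := fac_gt3 (show 4 ≤ q by omega)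
        have hu : ¬ q + 2 ∣ Nat.factorial q := ndf hp (by omega)
        subst hFad hSab hSbc
        refine ⟨q, q + 1, q + 2, Nat.factorial q, ?_⟩
        constructor
        all_goals first
          | assumption
          | exact nd (by omega) (by omega)
          | (intro _; assumption)
          | (intro h; exact absurd (by assumption) h)
          | (intro _; exact nd (by omega) (by omega))
          | (intro _; exact ndl (by omega) (by omega))
          | (intro h; exact absurd (Nat.dvd_factorial (by omega) (by omega)) h)
          | (intro _; exact nda (Nat.dvd_factorial (by omega) (by omega)) (by omega) (by omega))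
          | omega
          | (intro h; omega)
      · have hcd' : c ∣ d := by
          rw [← hFad, show c = 2 * (c / 2) by omega]
          exact even_dvd (by omega) (by omega)
        obtain ⟨p, hpN, hp⟩ := Nat.exists_infinite_primes (N + 20)
        obtain ⟨q, rfl⟩ : ∃ q, p = q + 1 := ⟨p - 1, by omega⟩
        have g := fac_gt3 (show 4 ≤ q by omega)
        have hu : ¬ q + 1 ∣ Nat.factorial q := ndf hp (by omega)
        subst hFad hSab hSbc
        refine ⟨q, q + 1, q + 2, Nat.factorial q, ?_⟩
        constructor
        all_goals first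
          | assumption
          | exact nd (by omega) (by omega)
          | (intro _; assumption)
          | (intro h; exact absurd (by assumption) h)
          | (intro _; exact nd (by omega) (by omega))
          | (intro _; exact ndl (by omega) (by omega))
          | (intro h; exact absurd (Nat.dvd_factorial (by omega) (by omega)) h)
          | (intro _; exact nda (Nat.dvd_factorial (by omega) (by omega)) (by omega) (by omega))
          | omega
          | (intro h; omega)
    · have hScd : c + 1 = d := by omega
      -- (m, m+1, m!-1, m!)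
      have A := a2 (by omega)
      have B := b3 (by omega)
      have C := c3 (by omega)
      have ha3 : 3 ≤ a := by omega
      clear a2 a3 b2 b3 c2 c3 s2 s3 s6 sa2 sb2 sc2 sa3 sb3 sc3 sa6 sb6 sc6 hA hB hC hD
      obtain ⟨p, hpN, hp⟩ := Nat.exists_infinite_primes (N + 20)
      obtain ⟨q, rfl⟩ : ∃ q, p = q + 1 := ⟨p - 1, by omega⟩
      have g := fac_gt3 (show 4 ≤ q by omega)
      have hu : ¬ q + 1 ∣ Nat.factorial q := ndf hp (by omega)
      have hw := wilson_dvd hp
      simp only [Nat.add_sub_cancel] at hw
      have hu2 : ¬ q + 1 ∣ Nat.factorial q - 1 := nds 2 hw (by omega) (by omega) (by omega)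
      subst hFad hSab
      have hn1 : ¬ q ∣ Nat.factorial q - 1 := nds 1 (Nat.dvd_factorial (show 0 < q by omega) le_rfl) (by omega) (by omega) (by omega)
      refine ⟨q, q + 1, Nat.factorial q - 1, Nat.factorial q, ?_⟩
      constructor
      all_goals first
        | assumption
        | exact nd (by omega) (by omega)
        | (intro _; assumption)
        | (intro h; exact absurd (by assumption) h)
        | (intro _; exact nd (by omega) (by omega))
        | (intro _; exact ndl (by omega) (by omega))
        | (intro h; exact absurd (Nat.dvd_factorial (by omega) (by omega)) h)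
        | (intro _; exact nda (Nat.dvd_factorial (by omega) (by omega)) (by omega) (by omega))
        | omega
        | (intro h; omega)
  · have hSbc : b + 1 = c := by omega
    by_cases hScd : c + 1 = d
    · -- (m, m!-2, m!-1, m!)
      have A := a2 (by omega)
      have B := b3 (by omega)
      have C := c3 (by omega)
      have ha3 : 3 ≤ a := by omega
      clear a2 a3 b2 b3 c2 c3 s2 s3 s6 sa2 sb2 sc2 sa3 sb3 sc3 sa6 sb6 sc6 hA hB hC hD
      obtain ⟨m, hm⟩ : ∃ m, m = N + 7 := ⟨_, rfl⟩
      have g := fac_gt3 (show 4 ≤ m by omega)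
      subst hFad hSbc
      have hn1 : ¬ m ∣ Nat.factorial m - 1 := nds 1 (Nat.dvd_factorial (show 0 < m by omega) le_rfl) (by omega) (by omega) (by omega)
      have hn2 : ¬ m ∣ Nat.factorial m - 2 := nds 2 (Nat.dvd_factorial (show 0 < m by omega) le_rfl) (by omega) (by omega) (by omega)
      refine ⟨m, Nat.factorial m - 2, Nat.factorial m - 1, Nat.factorial m, ?_⟩
      constructor
      all_goals first
        | assumption
        | exact nd (by omega) (by omega)
        | (intro _; assumption)
        | (intro h; exact absurd (by assumption) h)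
        | (intro _; exact nd (by omega) (by omega))
        | (intro _; exact ndl (by omega) (by omega))
        | (intro h; exact absurd (Nat.dvd_factorial (by omega) (by omega)) h)
        | (intro _; exact nda (Nat.dvd_factorial (by omega) (by omega)) (by omega) (by omega))
        | omega
        | (intro h; omega)
    · -- {a,d}, {b,c}
      have A := a2 (by omega)
      have B := b3 (by omega)
      have C := c3 (by omega)
      have ha3 : 3 ≤ a := by omega
      clear a2 a3 b2 b3 c2 c3 s2 s3 s6 sa2 sb2 sc2 sa3 sb3 sc3 sa6 sb6 sc6 hA hB hC hD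
      obtain ⟨T, hT⟩ : ∃ T, T = (N + 1) * Nat.factorial a := ⟨_, rfl⟩
      have t1 : Nat.factorial a ≤ T := by rw [hT]; exact Nat.le_mul_of_pos_left _ (by omega)
      have t2 : N + 1 ≤ T := by rw [hT]; exact Nat.le_mul_of_pos_right _ (Nat.factorial_pos _)
      have t3 : Nat.factorial a ∣ T := by rw [hT]; exact Dvd.intro_left _ rfl
      have t4 : a ∣ T := dvd_trans (Nat.dvd_factorial ha le_rfl) t3
      have t5 : ¬ a ∣ T + 1 := nda t4 (by omega) (by omega)
      have t6 : ¬ a ∣ T + 2 := nda t4 (by omega) (by omega)
      have t7 : ¬ Nat.factorial a ∣ T + 1 := nda t3 (by omega) (by omega)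
      have t8 : ¬ Nat.factorial a ∣ T + 2 := nda t3 (by omega) (by omega)
      subst hFad hSbc
      refine ⟨a, T + 1, T + 2, Nat.factorial a, ?_⟩
      constructor
      all_goals first
        | assumption
        | exact nd (by omega) (by omega)
        | (intro _; assumption)
        | (intro h; exact absurd (by assumption) h)
        | (intro _; exact nd (by omega) (by omega))
        | (intro _; exact ndl (by omega) (by omega))
        | (intro h; exact absurd (Nat.dvd_factorial (by omega) (by omega)) h)
        | (intro _; exact nda (Nat.dvd_factorial (by omega) (by omega)) (by omega) (by omega))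
        | omega
        | (intro h; omega)


lemma caseBd (H : ∀ N, ∃ m, N < m ∧ (Nat.factorial m + 1).Prime) (N a b c d : ℕ) (ha : 0 < a)
    (hab : a < b) (hbc : b < c) (hcd : c < d) (hd : 720 < d)
    (hA : ¬ (¬ a + 1 = b ∧ ¬ Nat.factorial a = b ∧ ¬ Nat.factorial a = c ∧ ¬ Nat.factorial a = d))
    (hB : ¬ (¬ a + 1 = b ∧ ¬ b + 1 = c ∧ ¬ Nat.factorial a = b ∧ ¬ Nat.factorial b = c ∧
      ¬ Nat.factorial b = d))
    (hC : ¬ (¬ b + 1 = c ∧ ¬ c + 1 = d ∧ ¬ Nat.factorial a = c ∧ ¬ Nat.factorial b = c ∧
      ¬ Nat.factorial c = d))
    (hD : ¬ (¬ c + 1 = d ∧ ¬ Nat.factorial a = d ∧ ¬ Nat.factorial b = d ∧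
      ¬ Nat.factorial c = d))
    (hFad : ¬ Nat.factorial a = d) (hFbd : Nat.factorial b = d) :
    ∃ a' b' c' d', Good4 N a b c d a' b' c' d' := by
  -- facts on the given numbers
  have m1 := fac_two ha hab
  have m2 := fac_two (show 0 < b by omega) hbc
  have q1 := Nat.self_le_factorial a
  have q2 := Nat.self_le_factorial b
  have q3 := Nat.self_le_factorial c
  have a2 : 3 ≤ a → a + 2 < Nat.factorial a := fac_gt0
  have a3 : 4 ≤ a → a + 3 < Nat.factorial a := fac_gt3
  have b2 : 3 ≤ b → b + 2 < Nat.factorial b := fac_gt0
  have b3 : 4 ≤ b → b + 3 < Nat.factorial b := fac_gt3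
  have c2 : 3 ≤ c → c + 2 < Nat.factorial c := fac_gt0
  have c3 : 4 ≤ c → c + 3 < Nat.factorial c := fac_gt3
  have s2 : ∀ {u : ℕ}, u ≤ 2 → Nat.factorial u ≤ 2 := fun {u} h => by
    have := Nat.factorial_le h; simpa using this
  have s3 : ∀ {u : ℕ}, u ≤ 3 → Nat.factorial u ≤ 6 := fun {u} h => by
    have := Nat.factorial_le h
    calc Nat.factorial u ≤ Nat.factorial 3 := this
      _ = 6 := rfl
  have s6 : ∀ {u : ℕ}, u ≤ 6 → Nat.factorial u ≤ 720 := fun {u} h => by
    have := Nat.factorial_le h
    calc Nat.factorial u ≤ Nat.factorial 6 := this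
      _ = 720 := rfl
  have sa2 : a ≤ 2 → Nat.factorial a ≤ 2 := s2
  have sb2 : b ≤ 2 → Nat.factorial b ≤ 2 := s2
  have sc2 : c ≤ 2 → Nat.factorial c ≤ 2 := s2
  have sa3 : a ≤ 3 → Nat.factorial a ≤ 6 := s3
  have sb3 : b ≤ 3 → Nat.factorial b ≤ 6 := s3
  have sc3 : c ≤ 3 → Nat.factorial c ≤ 6 := s3
  have sa6 : a ≤ 6 → Nat.factorial a ≤ 720 := s6
  have sb6 : b ≤ 6 → Nat.factorial b ≤ 720 := s6
  have sc6 : c ≤ 6 → Nat.factorial c ≤ 720 := s6
  have hb7 : 7 ≤ b := by omega
  by_cases hFab : Nat.factorial a = b
  · have ha3 : 4 ≤ a := by omega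
    by_cases hSbc : b + 1 = c
    · -- open pattern (m, m!, m!+1, m!!)
      have A := a2 (by omega)
      have B := b3 (by omega)
      have C := c3 (by omega)
      have ha3 : 3 ≤ a := by omega
      clear a2 a3 b2 b3 c2 c3 s2 s3 s6 sa2 sb2 sc2 sa3 sb3 sc3 sa6 sb6 sc6 hA hB hC hD
      obtain ⟨m, hm, hp⟩ := H (N + 7)
      have g := fac_gt3 (show 4 ≤ m by omega)
      have g' := fac_gt3 (show 4 ≤ Nat.factorial m by omega)
      have hu : ¬ Nat.factorial m + 1 ∣ Nat.factorial (Nat.factorial m) := ndf hp (by omega)
      subst hSbc hFbd hFab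
      refine ⟨m, Nat.factorial m, Nat.factorial m + 1, Nat.factorial (Nat.factorial m), ?_⟩
      constructor
      all_goals first
        | assumption
        | exact nd (by omega) (by omega)
        | (intro _; assumption)
        | (intro h; exact absurd (by assumption) h)
        | (intro _; exact nd (by omega) (by omega))
        | (intro _; exact ndl (by omega) (by omega))
        | (intro h; exact absurd (Nat.dvd_factorial (by omega) (by omega)) h)
        | (intro _; exact nda (Nat.dvd_factorial (by omega) (by omega)) (by omega) (by omega))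
        | omega
        | (intro h; omega)
    · have hScd : c + 1 = d := by omega
      -- (m, m!, m!!-1, m!!)
      have A := a2 (by omega)
      have B := b3 (by omega)
      have C := c3 (by omega)
      have ha3 : 3 ≤ a := by omega
      clear a2 a3 b2 b3 c2 c3 s2 s3 s6 sa2 sb2 sc2 sa3 sb3 sc3 sa6 sb6 sc6 hA hB hC hD
      obtain ⟨m, hm⟩ : ∃ m, m = N + 7 := ⟨_, rfl⟩
      have g := fac_gt3 (show 4 ≤ m by omega)
      have g' := fac_gt3 (show 4 ≤ Nat.factorial m by omega)
      subst hFbd hFab
      have hn1 : ¬ m ∣ Nat.factorial (Nat.factorial m) - 1 := nds 1 (Nat.dvd_factorial (show 0 < m by omega) (show m ≤ Nat.factorial m by omega)) (by omega) (by omega) (by omega)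
      have hn2 : ¬ Nat.factorial m ∣ Nat.factorial (Nat.factorial m) - 1 := nds 1 (Nat.dvd_factorial (Nat.factorial_pos m) le_rfl) (by omega) (by omega) (by omega)
      refine ⟨m, Nat.factorial m, Nat.factorial (Nat.factorial m) - 1, Nat.factorial (Nat.factorial m), ?_⟩
      constructor
      all_goals first
        | assumption
        | exact nd (by omega) (by omega)
        | (intro _; assumption)
        | (intro h; exact absurd (by assumption) h)
        | (intro _; exact nd (by omega) (by omega))
        | (intro _; exact ndl (by omega) (by omega))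
        | (intro h; exact absurd (Nat.dvd_factorial (by omega) (by omega)) h)
        | (intro _; exact nda (Nat.dvd_factorial (by omega) (by omega)) (by omega) (by omega))
        | omega
        | (intro h; omega)
  · by_cases hFac : Nat.factorial a = c
    · have ha3 : 4 ≤ a := by omega
      by_cases hSab : a + 1 = b
      · -- (m, m+1, m!, (m+1)!)
        have A := a2 (by omega)
        have B := b3 (by omega)
        have C := c3 (by omega)
        have ha3 : 3 ≤ a := by omega
        clear a2 a3 b2 b3 c2 c3 s2 s3 s6 sa2 sb2 sc2 sa3 sb3 sc3 sa6 sb6 sc6 hA hB hC hD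
        obtain ⟨p, hpN, hp⟩ := Nat.exists_infinite_primes (N + 20)
        obtain ⟨q, rfl⟩ : ∃ q, p = q + 1 := ⟨p - 1, by omega⟩
        have g := fac_gt3 (show 4 ≤ q by omega)
        have g' := fac_two (show 0 < q by omega) (show q < q + 1 by omega)
        have hu : ¬ q + 1 ∣ Nat.factorial q := ndf hp (by omega)
        have hcd' : c ∣ d := by rw [← hFac, ← hFbd]; exact Nat.factorial_dvd_factorial hab.le
        subst hFbd hFac hSab
        refine ⟨q, q + 1, Nat.factorial q, Nat.factorial (q + 1), ?_⟩
        constructor
        all_goals first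
          | assumption
          | exact nd (by omega) (by omega)
          | (intro _; assumption)
          | (intro h; exact absurd (by assumption) h)
          | (intro _; exact nd (by omega) (by omega))
          | (intro _; exact ndl (by omega) (by omega))
          | (intro h; exact absurd (Nat.dvd_factorial (by omega) (by omega)) h)
          | (intro _; exact nda (Nat.dvd_factorial (by omega) (by omega)) (by omega) (by omega))
          | omega
          | (intro h; omega)
      · by_cases hSbc : b + 1 = c
        · -- (m, m!-1, m!, (m!-1)!)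
          have A := a2 (by omega)
          have B := b3 (by omega)
          have C := c3 (by omega)
          have ha3 : 3 ≤ a := by omega
          clear a2 a3 b2 b3 c2 c3 s2 s3 s6 sa2 sb2 sc2 sa3 sb3 sc3 sa6 sb6 sc6 hA hB hC hD
          obtain ⟨m, hm⟩ : ∃ m, m = N + 7 := ⟨_, rfl⟩
          have g := fac_gt3 (show 4 ≤ m by omega)
          obtain ⟨w, hw⟩ : ∃ w, w + 1 = Nat.factorial m := ⟨Nat.factorial m - 1, by omega⟩
          have g' := fac_gt3 (show 4 ≤ w by omega)
          have hev := fac_even (show 2 ≤ a by omega)
          have hcd' : c ∣ d := by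
            rw [← hFbd, show c = 2 * (c / 2) by omega]
            exact even_dvd (by omega) (by omega)
          subst hFbd hFac
          have hn1 : ¬ m ∣ w := nds 1 (Nat.dvd_factorial (show 0 < m by omega) le_rfl) (by omega) (by omega) hw
          refine ⟨m, w, Nat.factorial m, Nat.factorial w, ?_⟩
          constructor
          all_goals first
            | assumption
            | exact nd (by omega) (by omega)
            | (intro _; assumption)
            | (intro h; exact absurd (by assumption) h)
            | (intro _; exact nd (by omega) (by omega))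
            | (intro _; exact ndl (by omega) (by omega))
            | (intro h; exact absurd (Nat.dvd_factorial (by omega) (by omega)) h)
            | (intro _; exact nda (Nat.dvd_factorial (by omega) (by omega)) (by omega) (by omega))
            | omega
            | (intro h; omega)
        · -- {a,c}, {b,d}
          have A := a2 (by omega)
          have B := b3 (by omega)
          have C := c3 (by omega)
          have ha3 : 3 ≤ a := by omega
          clear a2 a3 b2 b3 c2 c3 s2 s3 s6 sa2 sb2 sc2 sa3 sb3 sc3 sa6 sb6 sc6 hA hB hC hD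
          obtain ⟨p, hpN, hp⟩ := Nat.exists_infinite_primes (Nat.factorial a + N + 1)
          have g := fac_gt3 (show 4 ≤ p by omega)
          have t1 : ¬ a ∣ p := ndp hp (by omega) (by omega)
          have t2 : ¬ Nat.factorial a ∣ p := ndp hp (by omega) (by omega)
          have hcd' : c ∣ d := by rw [← hFac, ← hFbd]; exact Nat.factorial_dvd_factorial hab.le
          subst hFbd hFac
          refine ⟨a, p, Nat.factorial a, Nat.factorial p, ?_⟩
          constructor
          all_goals first
            | assumption
            | exact nd (by omega) (by omega)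
            | (intro _; assumption)
            | (intro h; exact absurd (by assumption) h)
            | (intro _; exact nd (by omega) (by omega))
            | (intro _; exact ndl (by omega) (by omega))
            | (intro h; exact absurd (Nat.dvd_factorial (by omega) (by omega)) h)
            | (intro _; exact nda (Nat.dvd_factorial (by omega) (by omega)) (by omega) (by omega))
            | omega
            | (intro h; omega)
    · have hSab : a + 1 = b := by omega
      by_cases hSbc : b + 1 = c
      · -- (m, m+1, m+2, (m+1)!)
        have A := a2 (by omega)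
        have B := b3 (by omega)
        have C := c3 (by omega)
        have ha3 : 3 ≤ a := by omega
        clear a2 a3 b2 b3 c2 c3 s2 s3 s6 sa2 sb2 sc2 sa3 sb3 sc3 sa6 sb6 sc6 hA hB hC hD
        obtain ⟨p, hpN, hp⟩ := Nat.exists_infinite_primes (N + 20)
        obtain ⟨q, rfl⟩ : ∃ q, p = q + 2 := ⟨p - 2, by omega⟩
        have g := fac_gt3 (show 4 ≤ q by omega)
        have g' := fac_gt3 (show 4 ≤ q + 1 by omega)
        have hu : ¬ q + 2 ∣ Nat.factorial (q + 1) := ndf hp (by omega)
        subst hFbd hSbc hSab
        refine ⟨q, q + 1, q + 2, Nat.factorial (q + 1), ?_⟩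
        constructor
        all_goals first
          | assumption
          | exact nd (by omega) (by omega)
          | (intro _; assumption)
          | (intro h; exact absurd (by assumption) h)
          | (intro _; exact nd (by omega) (by omega))
          | (intro _; exact ndl (by omega) (by omega))
          | (intro h; exact absurd (Nat.dvd_factorial (by omega) (by omega)) h)
          | (intro _; exact nda (Nat.dvd_factorial (by omega) (by omega)) (by omega) (by omega))
          | omega
          | (intro h; omega)
      · have hScd : c + 1 = d := by omega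
        -- (m, m+1, (m+1)!-1, (m+1)!)
        have A := a2 (by omega)
        have B := b3 (by omega)
        have C := c3 (by omega)
        have ha3 : 3 ≤ a := by omega
        clear a2 a3 b2 b3 c2 c3 s2 s3 s6 sa2 sb2 sc2 sa3 sb3 sc3 sa6 sb6 sc6 hA hB hC hD
        obtain ⟨m, hm⟩ : ∃ m, m = N + 7 := ⟨_, rfl⟩
        have g := fac_gt3 (show 4 ≤ m by omega)
        have g' := fac_gt3 (show 4 ≤ m + 1 by omega)
        subst hFbd hSab
        have hn1 : ¬ m ∣ Nat.factorial (m + 1) - 1 := nds 1 (Nat.dvd_factorial (show 0 < m by omega) (show m ≤ m + 1 by omega)) (by omega) (by omega) (by omega)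
        have hn2 : ¬ m + 1 ∣ Nat.factorial (m + 1) - 1 := nds 1 (Nat.dvd_factorial (show 0 < m + 1 by omega) le_rfl) (by omega) (by omega) (by omega)
        refine ⟨m, m + 1, Nat.factorial (m + 1) - 1, Nat.factorial (m + 1), ?_⟩
        constructor
        all_goals first
          | assumption
          | exact nd (by omega) (by omega)
          | (intro _; assumption)
          | (intro h; exact absurd (by assumption) h)
          | (intro _; exact nd (by omega) (by omega))
          | (intro _; exact ndl (by omega) (by omega))
          | (intro h; exact absurd (Nat.dvd_factorial (by omega) (by omega)) h)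
          | (intro _; exact nda (Nat.dvd_factorial (by omega) (by omega)) (by omega) (by omega))
          | omega
          | (intro h; omega)


lemma caseCd (N a b c d : ℕ) (ha : 0 < a)
    (hab : a < b) (hbc : b < c) (hcd : c < d) (hd : 720 < d)
    (hA : ¬ (¬ a + 1 = b ∧ ¬ Nat.factorial a = b ∧ ¬ Nat.factorial a = c ∧ ¬ Nat.factorial a = d))
    (hB : ¬ (¬ a + 1 = b ∧ ¬ b + 1 = c ∧ ¬ Nat.factorial a = b ∧ ¬ Nat.factorial b = c ∧
      ¬ Nat.factorial b = d))
    (hC : ¬ (¬ b + 1 = c ∧ ¬ c + 1 = d ∧ ¬ Nat.factorial a = c ∧ ¬ Nat.factorial b = c ∧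
      ¬ Nat.factorial c = d))
    (hD : ¬ (¬ c + 1 = d ∧ ¬ Nat.factorial a = d ∧ ¬ Nat.factorial b = d ∧
      ¬ Nat.factorial c = d))
    (hFad : ¬ Nat.factorial a = d) (hFbd : ¬ Nat.factorial b = d) (hFcd : Nat.factorial c = d) :
    ∃ a' b' c' d', Good4 N a b c d a' b' c' d' := by
  -- facts on the given numbers
  have m1 := fac_two ha hab
  have m2 := fac_two (show 0 < b by omega) hbc
  have q1 := Nat.self_le_factorial a
  have q2 := Nat.self_le_factorial b
  have q3 := Nat.self_le_factorial c
  have a2 : 3 ≤ a → a + 2 < Nat.factorial a := fac_gt0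
  have a3 : 4 ≤ a → a + 3 < Nat.factorial a := fac_gt3
  have b2 : 3 ≤ b → b + 2 < Nat.factorial b := fac_gt0
  have b3 : 4 ≤ b → b + 3 < Nat.factorial b := fac_gt3
  have c2 : 3 ≤ c → c + 2 < Nat.factorial c := fac_gt0
  have c3 : 4 ≤ c → c + 3 < Nat.factorial c := fac_gt3
  have s2 : ∀ {u : ℕ}, u ≤ 2 → Nat.factorial u ≤ 2 := fun {u} h => by
    have := Nat.factorial_le h; simpa using this
  have s3 : ∀ {u : ℕ}, u ≤ 3 → Nat.factorial u ≤ 6 := fun {u} h => by
    have := Nat.factorial_le h
    calc Nat.factorial u ≤ Nat.factorial 3 := this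
      _ = 6 := rfl
  have s6 : ∀ {u : ℕ}, u ≤ 6 → Nat.factorial u ≤ 720 := fun {u} h => by
    have := Nat.factorial_le h
    calc Nat.factorial u ≤ Nat.factorial 6 := this
      _ = 720 := rfl
  have sa2 : a ≤ 2 → Nat.factorial a ≤ 2 := s2
  have sb2 : b ≤ 2 → Nat.factorial b ≤ 2 := s2
  have sc2 : c ≤ 2 → Nat.factorial c ≤ 2 := s2
  have sa3 : a ≤ 3 → Nat.factorial a ≤ 6 := s3
  have sb3 : b ≤ 3 → Nat.factorial b ≤ 6 := s3
  have sc3 : c ≤ 3 → Nat.factorial c ≤ 6 := s3
  have sa6 : a ≤ 6 → Nat.factorial a ≤ 720 := s6
  have sb6 : b ≤ 6 → Nat.factorial b ≤ 720 := s6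
  have sc6 : c ≤ 6 → Nat.factorial c ≤ 720 := s6
  have hc7 : 7 ≤ c := by omega
  by_cases hFab : Nat.factorial a = b
  · by_cases hSbc : b + 1 = c
    · -- (m, m!, m!+1, (m!+1)!)
      have A := a2 (by omega)
      have B := b3 (by omega)
      have C := c3 (by omega)
      have ha3 : 3 ≤ a := by omega
      clear a2 a3 b2 b3 c2 c3 s2 s3 s6 sa2 sb2 sc2 sa3 sb3 sc3 sa6 sb6 sc6 hA hB hC hD
      obtain ⟨m, hm⟩ : ∃ m, m = N + 7 := ⟨_, rfl⟩
      have g := fac_gt3 (show 4 ≤ m by omega)
      have g' := fac_gt3 (show 4 ≤ Nat.factorial m + 1 by omega)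
      subst hFcd hSbc hFab
      refine ⟨m, Nat.factorial m, Nat.factorial m + 1, Nat.factorial (Nat.factorial m + 1), ?_⟩
      constructor
      all_goals first
        | assumption
        | exact nd (by omega) (by omega)
        | (intro _; assumption)
        | (intro h; exact absurd (by assumption) h)
        | (intro _; exact nd (by omega) (by omega))
        | (intro _; exact ndl (by omega) (by omega))
        | (intro h; exact absurd (Nat.dvd_factorial (by omega) (by omega)) h)
        | (intro _; exact nda (Nat.dvd_factorial (by omega) (by omega)) (by omega) (by omega))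
        | omega
        | (intro h; omega)
    · by_cases hFbc : Nat.factorial b = c
      · -- (m, m!, m!!, m!!!)
        have A := a2 (by omega)
        have B := b3 (by omega)
        have C := c3 (by omega)
        have ha3 : 3 ≤ a := by omega
        clear a2 a3 b2 b3 c2 c3 s2 s3 s6 sa2 sb2 sc2 sa3 sb3 sc3 sa6 sb6 sc6 hA hB hC hD
        obtain ⟨m, hm⟩ : ∃ m, m = N + 7 := ⟨_, rfl⟩
        have g := fac_gt3 (show 4 ≤ m by omega)
        have g' := fac_gt3 (show 4 ≤ Nat.factorial m by omega)
        have g'' := fac_gt3 (show 4 ≤ Nat.factorial (Nat.factorial m) by omega)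
        subst hFcd hFbc hFab
        refine ⟨m, Nat.factorial m, Nat.factorial (Nat.factorial m), Nat.factorial (Nat.factorial (Nat.factorial m)), ?_⟩
        constructor
        all_goals first
          | assumption
          | exact nd (by omega) (by omega)
          | (intro _; assumption)
          | (intro h; exact absurd (by assumption) h)
          | (intro _; exact nd (by omega) (by omega))
          | (intro _; exact ndl (by omega) (by omega))
          | (intro h; exact absurd (Nat.dvd_factorial (by omega) (by omega)) h)
          | (intro _; exact nda (Nat.dvd_factorial (by omega) (by omega)) (by omega) (by omega))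
          | omega
          | (intro h; omega)
      · -- {a,b}, {c,c!}
        have C := c3 (by omega)
        clear a2 a3 b2 b3 c2 c3 s2 s3 s6 sa2 sb2 sc2 sa3 sb3 sc3 sa6 sb6 sc6 hA hB hC hD
        obtain ⟨p, hpN, hp⟩ := Nat.exists_infinite_primes (b + N + 4)
        have g := fac_gt3 (show 4 ≤ p by omega)
        have t1 : ¬ b ∣ p := ndp hp (by omega) (by omega)
        have t2 : ¬ a ∣ c → ¬ a ∣ p := fun h => ndp hp (by
          by_contra hcon
          have : a = 1 := by omega
          subst this
          exact h (one_dvd _)) (by omega)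
        subst hFcd
        refine ⟨a, b, p, Nat.factorial p, ?_⟩
        constructor
        all_goals first
          | assumption
          | exact nd (by omega) (by omega)
          | (intro _; assumption)
          | (intro h; exact absurd (by assumption) h)
          | (intro _; exact nd (by omega) (by omega))
          | (intro _; exact ndl (by omega) (by omega))
          | (intro h; exact absurd (Nat.dvd_factorial (by omega) (by omega)) h)
          | (intro _; exact nda (Nat.dvd_factorial (by omega) (by omega)) (by omega) (by omega))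
          | omega
          | (intro h; omega)
  · by_cases hFac : Nat.factorial a = c
    · have ha3 : 4 ≤ a := by omega
      by_cases hSab : a + 1 = b
      · -- (m, m+1, m!, m!!)
        have A := a2 (by omega)
        have B := b3 (by omega)
        have C := c3 (by omega)
        have ha3 : 3 ≤ a := by omega
        clear a2 a3 b2 b3 c2 c3 s2 s3 s6 sa2 sb2 sc2 sa3 sb3 sc3 sa6 sb6 sc6 hA hB hC hD
        obtain ⟨p, hpN, hp⟩ := Nat.exists_infinite_primes (N + 20)
        obtain ⟨q, rfl⟩ : ∃ q, p = q + 1 := ⟨p - 1, by omega⟩
        have g := fac_gt3 (show 4 ≤ q by omega)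
        have g' := fac_gt3 (show 4 ≤ Nat.factorial q by omega)
        have hu : ¬ q + 1 ∣ Nat.factorial q := ndf hp (by omega)
        subst hFcd hFac hSab
        refine ⟨q, q + 1, Nat.factorial q, Nat.factorial (Nat.factorial q), ?_⟩
        constructor
        all_goals first
          | assumption
          | exact nd (by omega) (by omega)
          | (intro _; assumption)
          | (intro h; exact absurd (by assumption) h)
          | (intro _; exact nd (by omega) (by omega))
          | (intro _; exact ndl (by omega) (by omega))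
          | (intro h; exact absurd (Nat.dvd_factorial (by omega) (by omega)) h)
          | (intro _; exact nda (Nat.dvd_factorial (by omega) (by omega)) (by omega) (by omega))
          | omega
          | (intro h; omega)
      · have hSbc : b + 1 = c := by omega
        -- (m, m!-1, m!, m!!)
        have A := a2 (by omega)
        have B := b3 (by omega)
        have C := c3 (by omega)
        have ha3 : 3 ≤ a := by omega
        clear a2 a3 b2 b3 c2 c3 s2 s3 s6 sa2 sb2 sc2 sa3 sb3 sc3 sa6 sb6 sc6 hA hB hC hD
        obtain ⟨m, hm⟩ : ∃ m, m = N + 7 := ⟨_, rfl⟩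
        have g := fac_gt3 (show 4 ≤ m by omega)
        have g' := fac_gt3 (show 4 ≤ Nat.factorial m by omega)
        subst hFcd hFac
        have hn1 : ¬ m ∣ Nat.factorial m - 1 := nds 1 (Nat.dvd_factorial (show 0 < m by omega) le_rfl) (by omega) (by omega) (by omega)
        refine ⟨m, Nat.factorial m - 1, Nat.factorial m, Nat.factorial (Nat.factorial m), ?_⟩
        constructor
        all_goals first
          | assumption
          | exact nd (by omega) (by omega)
          | (intro _; assumption)
          | (intro h; exact absurd (by assumption) h)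
          | (intro _; exact nd (by omega) (by omega))
          | (intro _; exact ndl (by omega) (by omega))
          | (intro h; exact absurd (Nat.dvd_factorial (by omega) (by omega)) h)
          | (intro _; exact nda (Nat.dvd_factorial (by omega) (by omega)) (by omega) (by omega))
          | omega
          | (intro h; omega)
    · have hSab : a + 1 = b := by omega
      by_cases hSbc : b + 1 = c
      · -- (m, m+1, m+2, (m+2)!)
        have A := a2 (by omega)
        have B := b3 (by omega)
        have C := c3 (by omega)
        have ha3 : 3 ≤ a := by omega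
        clear a2 a3 b2 b3 c2 c3 s2 s3 s6 sa2 sb2 sc2 sa3 sb3 sc3 sa6 sb6 sc6 hA hB hC hD
        obtain ⟨m, hm⟩ : ∃ m, m = N + 7 := ⟨_, rfl⟩
        have g := fac_gt3 (show 4 ≤ m by omega)
        have g' := fac_gt3 (show 4 ≤ m + 2 by omega)
        subst hFcd hSbc hSab
        refine ⟨m, m + 1, m + 2, Nat.factorial (m + 2), ?_⟩
        constructor
        all_goals first
          | assumption
          | exact nd (by omega) (by omega)
          | (intro _; assumption)
          | (intro h; exact absurd (by assumption) h)
          | (intro _; exact nd (by omega) (by omega))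
          | (intro _; exact ndl (by omega) (by omega))
          | (intro h; exact absurd (Nat.dvd_factorial (by omega) (by omega)) h)
          | (intro _; exact nda (Nat.dvd_factorial (by omega) (by omega)) (by omega) (by omega))
          | omega
          | (intro h; omega)
      · by_cases hFbc : Nat.factorial b = c
        · -- (m, m+1, (m+1)!, (m+1)!!)
          have A := a2 (by omega)
          have B := b3 (by omega)
          have C := c3 (by omega)
          have ha3 : 3 ≤ a := by omega
          clear a2 a3 b2 b3 c2 c3 s2 s3 s6 sa2 sb2 sc2 sa3 sb3 sc3 sa6 sb6 sc6 hA hB hC hD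
          obtain ⟨m, hm⟩ : ∃ m, m = N + 7 := ⟨_, rfl⟩
          have g := fac_gt3 (show 4 ≤ m by omega)
          have g' := fac_gt3 (show 4 ≤ m + 1 by omega)
          have g'' := fac_gt3 (show 4 ≤ Nat.factorial (m + 1) by omega)
          subst hFcd hFbc hSab
          refine ⟨m, m + 1, Nat.factorial (m + 1), Nat.factorial (Nat.factorial (m + 1)), ?_⟩
          constructor
          all_goals first
            | assumption
            | exact nd (by omega) (by omega)
            | (intro _; assumption)
            | (intro h; exact absurd (by assumption) h)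
            | (intro _; exact nd (by omega) (by omega))
            | (intro _; exact ndl (by omega) (by omega))
            | (intro h; exact absurd (Nat.dvd_factorial (by omega) (by omega)) h)
            | (intro _; exact nda (Nat.dvd_factorial (by omega) (by omega)) (by omega) (by omega))
            | omega
            | (intro h; omega)
        · -- {a,b}, {c,c!}
          have C := c3 (by omega)
          clear a2 a3 b2 b3 c2 c3 s2 s3 s6 sa2 sb2 sc2 sa3 sb3 sc3 sa6 sb6 sc6 hA hB hC hD
          obtain ⟨p, hpN, hp⟩ := Nat.exists_infinite_primes (b + N + 4)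
          have g := fac_gt3 (show 4 ≤ p by omega)
          have t1 : ¬ b ∣ p := ndp hp (by omega) (by omega)
          have t2 : ¬ a ∣ c → ¬ a ∣ p := fun h => ndp hp (by
            by_contra hcon
            have : a = 1 := by omega
            subst this
            exact h (one_dvd _)) (by omega)
          subst hFcd
          refine ⟨a, b, p, Nat.factorial p, ?_⟩
          constructor
          all_goals first
            | assumption
            | exact nd (by omega) (by omega)
            | (intro _; assumption)
            | (intro h; exact absurd (by assumption) h)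
            | (intro _; exact nd (by omega) (by omega))
            | (intro _; exact ndl (by omega) (by omega))
            | (intro h; exact absurd (Nat.dvd_factorial (by omega) (by omega)) h)
            | (intro _; exact nda (Nat.dvd_factorial (by omega) (by omega)) (by omega) (by omega))
            | omega
            | (intro h; omega)


lemma caseS (N a b c d : ℕ) (ha : 0 < a)
    (hab : a < b) (hbc : b < c) (hcd : c < d) (hd : 720 < d)
    (hA : ¬ (¬ a + 1 = b ∧ ¬ Nat.factorial a = b ∧ ¬ Nat.factorial a = c ∧ ¬ Nat.factorial a = d))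
    (hB : ¬ (¬ a + 1 = b ∧ ¬ b + 1 = c ∧ ¬ Nat.factorial a = b ∧ ¬ Nat.factorial b = c ∧
      ¬ Nat.factorial b = d))
    (hC : ¬ (¬ b + 1 = c ∧ ¬ c + 1 = d ∧ ¬ Nat.factorial a = c ∧ ¬ Nat.factorial b = c ∧
      ¬ Nat.factorial c = d))
    (hD : ¬ (¬ c + 1 = d ∧ ¬ Nat.factorial a = d ∧ ¬ Nat.factorial b = d ∧
      ¬ Nat.factorial c = d))
    (hFad : ¬ Nat.factorial a = d) (hFbd : ¬ Nat.factorial b = d) (hFcd : ¬ Nat.factorial c = d) :
    ∃ a' b' c' d', Good4 N a b c d a' b' c' d' := by
  -- facts on the given numbers
  have m1 := fac_two ha hab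
  have m2 := fac_two (show 0 < b by omega) hbc
  have q1 := Nat.self_le_factorial a
  have q2 := Nat.self_le_factorial b
  have q3 := Nat.self_le_factorial c
  have a2 : 3 ≤ a → a + 2 < Nat.factorial a := fac_gt0
  have a3 : 4 ≤ a → a + 3 < Nat.factorial a := fac_gt3
  have b2 : 3 ≤ b → b + 2 < Nat.factorial b := fac_gt0
  have b3 : 4 ≤ b → b + 3 < Nat.factorial b := fac_gt3
  have c2 : 3 ≤ c → c + 2 < Nat.factorial c := fac_gt0
  have c3 : 4 ≤ c → c + 3 < Nat.factorial c := fac_gt3
  have s2 : ∀ {u : ℕ}, u ≤ 2 → Nat.factorial u ≤ 2 := fun {u} h => by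
    have := Nat.factorial_le h; simpa using this
  have s3 : ∀ {u : ℕ}, u ≤ 3 → Nat.factorial u ≤ 6 := fun {u} h => by
    have := Nat.factorial_le h
    calc Nat.factorial u ≤ Nat.factorial 3 := this
      _ = 6 := rfl
  have s6 : ∀ {u : ℕ}, u ≤ 6 → Nat.factorial u ≤ 720 := fun {u} h => by
    have := Nat.factorial_le h
    calc Nat.factorial u ≤ Nat.factorial 6 := this
      _ = 720 := rfl
  have sa2 : a ≤ 2 → Nat.factorial a ≤ 2 := s2
  have sb2 : b ≤ 2 → Nat.factorial b ≤ 2 := s2
  have sc2 : c ≤ 2 → Nat.factorial c ≤ 2 := s2
  have sa3 : a ≤ 3 → Nat.factorial a ≤ 6 := s3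
  have sb3 : b ≤ 3 → Nat.factorial b ≤ 6 := s3
  have sc3 : c ≤ 3 → Nat.factorial c ≤ 6 := s3
  have sa6 : a ≤ 6 → Nat.factorial a ≤ 720 := s6
  have sb6 : b ≤ 6 → Nat.factorial b ≤ 720 := s6
  have sc6 : c ≤ 6 → Nat.factorial c ≤ 720 := s6
  have hScd : c + 1 = d := by omega
  by_cases hFab : Nat.factorial a = b
  · by_cases hSbc : b + 1 = c
    · -- (m, m!, m!+1, m!+2)
      have A := a2 (by omega)
      have B := b3 (by omega)
      have C := c3 (by omega)
      have ha3 : 3 ≤ a := by omega
      clear a2 a3 b2 b3 c2 c3 s2 s3 s6 sa2 sb2 sc2 sa3 sb3 sc3 sa6 sb6 sc6 hA hB hC hD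
      obtain ⟨m, hm⟩ : ∃ m, m = N + 7 := ⟨_, rfl⟩
      have g := fac_gt3 (show 4 ≤ m by omega)
      subst hScd hSbc hFab
      refine ⟨m, Nat.factorial m, Nat.factorial m + 1, Nat.factorial m + 2, ?_⟩
      constructor
      all_goals first
        | assumption
        | exact nd (by omega) (by omega)
        | (intro _; assumption)
        | (intro h; exact absurd (by assumption) h)
        | (intro _; exact nd (by omega) (by omega))
        | (intro _; exact ndl (by omega) (by omega))
        | (intro h; exact absurd (Nat.dvd_factorial (by omega) (by omega)) h)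
        | (intro _; exact nda (Nat.dvd_factorial (by omega) (by omega)) (by omega) (by omega))
        | omega
        | (intro h; omega)
    · by_cases hFbc : Nat.factorial b = c
      · -- (m, m!, m!!, m!!+1)
        have A := a2 (by omega)
        have B := b3 (by omega)
        have C := c3 (by omega)
        have ha3 : 3 ≤ a := by omega
        clear a2 a3 b2 b3 c2 c3 s2 s3 s6 sa2 sb2 sc2 sa3 sb3 sc3 sa6 sb6 sc6 hA hB hC hD
        obtain ⟨m, hm⟩ : ∃ m, m = N + 7 := ⟨_, rfl⟩
        have g := fac_gt3 (show 4 ≤ m by omega)
        have g' := fac_gt3 (show 4 ≤ Nat.factorial m by omega)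
        subst hScd hFbc hFab
        refine ⟨m, Nat.factorial m, Nat.factorial (Nat.factorial m), Nat.factorial (Nat.factorial m) + 1, ?_⟩
        constructor
        all_goals first
          | assumption
          | exact nd (by omega) (by omega)
          | (intro _; assumption)
          | (intro h; exact absurd (by assumption) h)
          | (intro _; exact nd (by omega) (by omega))
          | (intro _; exact ndl (by omega) (by omega))
          | (intro h; exact absurd (Nat.dvd_factorial (by omega) (by omega)) h)
          | (intro _; exact nda (Nat.dvd_factorial (by omega) (by omega)) (by omega) (by omega))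
          | omega
          | (intro h; omega)
      · -- {a,b}, {c,c+1}
        have C := c3 (by omega)
        clear a2 a3 b2 b3 c2 c3 s2 s3 s6 sa2 sb2 sc2 sa3 sb3 sc3 sa6 sb6 sc6 hA hB hC hD
        obtain ⟨T, hT⟩ : ∃ T, T = (N + 1) * b * a := ⟨_, rfl⟩
        have t0 : N + 1 ≤ T := by
          rw [hT]
          calc N + 1 ≤ (N + 1) * b := Nat.le_mul_of_pos_right _ (by omega)
            _ ≤ (N + 1) * b * a := Nat.le_mul_of_pos_right _ ha
        have t1 : ∀ {u : ℕ}, ¬ a ∣ u → ¬ a ∣ u + T := fun h => by rw [hT]; exact nd_shift h
        have t2 : ∀ {u : ℕ}, ¬ b ∣ u → ¬ b ∣ u + T := fun h => by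
          rw [hT, show (N + 1) * b * a = (N + 1) * a * b by ring]; exact nd_shift h
        subst hScd
        refine ⟨a, b, c + T, c + 1 + T, ?_⟩
        have t3 := @t1 c
        have t4 := @t1 (c + 1)
        have t5 := @t2 c
        have t6 := @t2 (c + 1)
        constructor
        all_goals first
          | assumption
          | exact nd (by omega) (by omega)
          | (intro _; assumption)
          | (intro h; exact absurd (by assumption) h)
          | (intro _; exact nd (by omega) (by omega))
          | (intro _; exact ndl (by omega) (by omega))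
          | (intro h; exact absurd (Nat.dvd_factorial (by omega) (by omega)) h)
          | (intro _; exact nda (Nat.dvd_factorial (by omega) (by omega)) (by omega) (by omega))
          | omega
          | (intro h; omega)
  · by_cases hFac : Nat.factorial a = c
    · have ha3 : 6 ≤ a := by
        by_contra hcon
        have : Nat.factorial a ≤ Nat.factorial 5 := Nat.factorial_le (by omega)
        have h5 : Nat.factorial 5 = 120 := rfl
        omega
      by_cases hSab : a + 1 = b
      · -- (m, m+1, m!, m!+1)
        have A := a2 (by omega)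
        have B := b3 (by omega)
        have C := c3 (by omega)
        have ha3 : 3 ≤ a := by omega
        clear a2 a3 b2 b3 c2 c3 s2 s3 s6 sa2 sb2 sc2 sa3 sb3 sc3 sa6 sb6 sc6 hA hB hC hD
        by_cases hdv : b ∣ c
        · obtain ⟨m, hm⟩ : ∃ m, m = 2 * (N + 7) + 1 := ⟨_, rfl⟩
          have g := fac_gt3 (show 4 ≤ m by omega)
          have hmd : m + 1 ∣ Nat.factorial m := by
            rw [show m + 1 = 2 * ((m + 1) / 2) by omega]
            exact even_dvd (by omega) (by omega)
          have hu : ¬ m + 1 ∣ Nat.factorial m + 1 := nda hmd (by omega) (by omega)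
          subst hScd hFac hSab
          refine ⟨m, m + 1, Nat.factorial m, Nat.factorial m + 1, ?_⟩
          constructor
          all_goals first
            | assumption
            | exact nd (by omega) (by omega)
            | (intro _; assumption)
            | (intro h; exact absurd (by assumption) h)
            | (intro _; exact nd (by omega) (by omega))
            | (intro _; exact ndl (by omega) (by omega))
            | (intro h; exact absurd (Nat.dvd_factorial (by omega) (by omega)) h)
            | (intro _; exact nda (Nat.dvd_factorial (by omega) (by omega)) (by omega) (by omega))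
            | omega
            | (intro h; omega)
        · have hbp : b.Prime := prime_of_ndvd (by omega) (by
            rw [show b - 1 = a by omega, hFac]; exact hdv)
          have hbd : b ∣ d := by
            have := wilson_dvd hbp
            rw [show b - 1 = a by omega, hFac] at this
            rw [← hScd]; exact this
          obtain ⟨p, hpN, hp⟩ := Nat.exists_infinite_primes (N + 20)
          obtain ⟨q, rfl⟩ : ∃ q, p = q + 1 := ⟨p - 1, by omega⟩
          have g := fac_gt3 (show 4 ≤ q by omega)
          have hu : ¬ q + 1 ∣ Nat.factorial q := ndf hp (by omega)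
          subst hScd hFac hSab
          refine ⟨q, q + 1, Nat.factorial q, Nat.factorial q + 1, ?_⟩
          constructor
          all_goals first
            | assumption
            | exact nd (by omega) (by omega)
            | (intro _; assumption)
            | (intro h; exact absurd (by assumption) h)
            | (intro _; exact nd (by omega) (by omega))
            | (intro _; exact ndl (by omega) (by omega))
            | (intro h; exact absurd (Nat.dvd_factorial (by omega) (by omega)) h)
            | (intro _; exact nda (Nat.dvd_factorial (by omega) (by omega)) (by omega) (by omega))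
            | omega
            | (intro h; omega)
      · have hSbc : b + 1 = c := by omega
        -- (m, m!-1, m!, m!+1)
        have A := a2 (by omega)
        have B := b3 (by omega)
        have C := c3 (by omega)
        have ha3 : 3 ≤ a := by omega
        clear a2 a3 b2 b3 c2 c3 s2 s3 s6 sa2 sb2 sc2 sa3 sb3 sc3 sa6 sb6 sc6 hA hB hC hD
        obtain ⟨m, hm⟩ : ∃ m, m = N + 7 := ⟨_, rfl⟩
        have g := fac_gt3 (show 4 ≤ m by omega)
        subst hScd hFac
        have hn1 : ¬ m ∣ Nat.factorial m - 1 := nds 1 (Nat.dvd_factorial (show 0 < m by omega) le_rfl) (by omega) (by omega) (by omega)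
        refine ⟨m, Nat.factorial m - 1, Nat.factorial m, Nat.factorial m + 1, ?_⟩
        constructor
        all_goals first
          | assumption
          | exact nd (by omega) (by omega)
          | (intro _; assumption)
          | (intro h; exact absurd (by assumption) h)
          | (intro _; exact nd (by omega) (by omega))
          | (intro _; exact ndl (by omega) (by omega))
          | (intro h; exact absurd (Nat.dvd_factorial (by omega) (by omega)) h)
          | (intro _; exact nda (Nat.dvd_factorial (by omega) (by omega)) (by omega) (by omega))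
          | omega
          | (intro h; omega)
    · have hSab : a + 1 = b := by omega
      by_cases hSbc : b + 1 = c
      · -- (m, m+1, m+2, m+3)
        have A := a2 (by omega)
        have B := b3 (by omega)
        have C := c3 (by omega)
        have ha3 : 3 ≤ a := by omega
        clear a2 a3 b2 b3 c2 c3 s2 s3 s6 sa2 sb2 sc2 sa3 sb3 sc3 sa6 sb6 sc6 hA hB hC hD
        obtain ⟨m, hm⟩ : ∃ m, m = N + 7 := ⟨_, rfl⟩
        have g := fac_gt3 (show 4 ≤ m by omega)
        subst hScd hSbc hSab
        refine ⟨m, m + 1, m + 2, m + 3, ?_⟩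
        constructor
        all_goals first
          | assumption
          | exact nd (by omega) (by omega)
          | (intro _; assumption)
          | (intro h; exact absurd (by assumption) h)
          | (intro _; exact nd (by omega) (by omega))
          | (intro _; exact ndl (by omega) (by omega))
          | (intro h; exact absurd (Nat.dvd_factorial (by omega) (by omega)) h)
          | (intro _; exact nda (Nat.dvd_factorial (by omega) (by omega)) (by omega) (by omega))
          | omega
          | (intro h; omega)
      · by_cases hFbc : Nat.factorial b = c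
        · -- (m, m+1, (m+1)!, (m+1)!+1)
          have A := a2 (by omega)
          have B := b3 (by omega)
          have C := c3 (by omega)
          have ha3 : 3 ≤ a := by omega
          clear a2 a3 b2 b3 c2 c3 s2 s3 s6 sa2 sb2 sc2 sa3 sb3 sc3 sa6 sb6 sc6 hA hB hC hD
          obtain ⟨m, hm⟩ : ∃ m, m = N + 7 := ⟨_, rfl⟩
          have g := fac_gt3 (show 4 ≤ m by omega)
          have g' := fac_gt3 (show 4 ≤ m + 1 by omega)
          subst hScd hFbc hSab
          refine ⟨m, m + 1, Nat.factorial (m + 1), Nat.factorial (m + 1) + 1, ?_⟩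
          constructor
          all_goals first
            | assumption
            | exact nd (by omega) (by omega)
            | (intro _; assumption)
            | (intro h; exact absurd (by assumption) h)
            | (intro _; exact nd (by omega) (by omega))
            | (intro _; exact ndl (by omega) (by omega))
            | (intro h; exact absurd (Nat.dvd_factorial (by omega) (by omega)) h)
            | (intro _; exact nda (Nat.dvd_factorial (by omega) (by omega)) (by omega) (by omega))
            | omega
            | (intro h; omega)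
        · -- {a,b}, {c,c+1}
          have C := c3 (by omega)
          clear a2 a3 b2 b3 c2 c3 s2 s3 s6 sa2 sb2 sc2 sa3 sb3 sc3 sa6 sb6 sc6 hA hB hC hD
          obtain ⟨T, hT⟩ : ∃ T, T = (N + 1) * b * a := ⟨_, rfl⟩
          have t0 : N + 1 ≤ T := by
            rw [hT]
            calc N + 1 ≤ (N + 1) * b := Nat.le_mul_of_pos_right _ (by omega)
              _ ≤ (N + 1) * b * a := Nat.le_mul_of_pos_right _ ha
          have t1 : ∀ {u : ℕ}, ¬ a ∣ u → ¬ a ∣ u + T := fun h => by rw [hT]; exact nd_shift h
          have t2 : ∀ {u : ℕ}, ¬ b ∣ u → ¬ b ∣ u + T := fun h => by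
            rw [hT, show (N + 1) * b * a = (N + 1) * a * b by ring]; exact nd_shift h
          subst hScd
          refine ⟨a, b, c + T, c + 1 + T, ?_⟩
          have t3 := @t1 c
          have t4 := @t1 (c + 1)
          have t5 := @t2 c
          have t6 := @t2 (c + 1)
          constructor
          all_goals first
            | assumption
            | exact nd (by omega) (by omega)
            | (intro _; assumption)
            | (intro h; exact absurd (by assumption) h)
            | (intro _; exact nd (by omega) (by omega))
            | (intro _; exact ndl (by omega) (by omega))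
            | (intro h; exact absurd (Nat.dvd_factorial (by omega) (by omega)) h)
            | (intro _; exact nda (Nat.dvd_factorial (by omega) (by omega)) (by omega) (by omega))
            | omega
            | (intro h; omega)


lemma core4 (H : ∀ N, ∃ m, N < m ∧ (Nat.factorial m + 1).Prime) (N a b c d : ℕ) (ha : 0 < a)
    (hab : a < b) (hbc : b < c) (hcd : c < d) (hd : 720 < d) :
    ∃ a' b' c' d', Good4 N a b c d a' b' c' d' := by
  by_cases hA : ¬ a + 1 = b ∧ ¬ Nat.factorial a = b ∧ ¬ Nat.factorial a = c ∧ ¬ Nat.factorial a = d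
  · exact freeA N a b c d ha hab hbc hcd hd hA.1 hA.2.1 hA.2.2.1 hA.2.2.2
  by_cases hB : ¬ a + 1 = b ∧ ¬ b + 1 = c ∧ ¬ Nat.factorial a = b ∧ ¬ Nat.factorial b = c ∧
      ¬ Nat.factorial b = d
  · exact freeB N a b c d ha hab hbc hcd hd hB.1 hB.2.1 hB.2.2.1 hB.2.2.2.1 hB.2.2.2.2
  by_cases hC : ¬ b + 1 = c ∧ ¬ c + 1 = d ∧ ¬ Nat.factorial a = c ∧ ¬ Nat.factorial b = c ∧
      ¬ Nat.factorial c = d
  · exact freeC N a b c d ha hab hbc hcd hd hC.1 hC.2.1 hC.2.2.1 hC.2.2.2.1 hC.2.2.2.2
  by_cases hD : ¬ c + 1 = d ∧ ¬ Nat.factorial a = d ∧ ¬ Nat.factorial b = d ∧ ¬ Nat.factorial c = d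
  · exact freeD N a b c d ha hab hbc hcd hD.1 hD.2.1 hD.2.2.1 hD.2.2.2
  by_cases hFad : Nat.factorial a = d
  · exact caseAd N a b c d ha hab hbc hcd hd hA hB hC hD hFad
  by_cases hFbd : Nat.factorial b = d
  · exact caseBd H N a b c d ha hab hbc hcd hd hA hB hC hD hFad hFbd
  by_cases hFcd : Nat.factorial c = d
  · exact caseCd N a b c d ha hab hbc hcd hd hA hB hC hD hFad hFbd hFcd
  exact caseS N a b c d ha hab hbc hcd hd hA hB hC hD hFad hFbd hFcd

lemma hf4 : f 4 = 720 := by
  have h3 : f 3 = 6 := rfl
  have h4 : f 4 = Nat.factorial (f 3) := by rw [f]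
  rw [h4, h3]
  norm_num [Nat.factorial]

lemma transfer4 {n : ℕ} (N : ℕ) (x : Fin n → ℕ) (a b c d a' b' c' d' : ℕ) (hab : a < b)
    (hbc : b < c) (hcd : c < d) (hd : 720 < d) (hG : Good4 N a b c d a' b' c' d')
    (hx : ∀ i, x i = a ∨ x i = b ∨ x i = c ∨ x i = d) (ha : ∃ i, x i = a) (hb : ∃ i, x i = b)
    (hc : ∃ i, x i = c) (hd' : ∃ i, x i = d) :
    ∃ y : Fin n → ℕ, Pres x y ∧ ∃ i, N < y i := by
  obtain ⟨φ, hφ⟩ : ∃ φ : ℕ → ℕ, φ = fun v => if v = a then a' else if v = b then b' else
    if v = c then c' else d' := ⟨_, rfl⟩
  have ea : φ a = a' := by simp [hφ]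
  have eb : φ b = b' := by simp [hφ, hab.ne']
  have ec : φ c = c' := by simp [hφ, hbc.ne', (hab.trans hbc).ne']
  have ed : φ d = d' := by simp [hφ, hcd.ne', (hbc.trans hcd).ne', ((hab.trans hbc).trans hcd).ne']
  clear hφ
  have q1 := Nat.self_le_factorial a
  have q2 := Nat.self_le_factorial b
  have q3 := Nat.self_le_factorial c
  have q4 := fac_gt1 (show 3 ≤ d by omega)
  refine ⟨fun i => φ (x i), ⟨?_, ?_⟩, ?_⟩
  · intro i
    show 0 < φ (x i)
    rcases hx i with h | h | h | h <;> rw [h]
    · rw [ea]; exact hG.pa
    · rw [eb]; exact hG.pb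
    · rw [ec]; exact hG.pc
    · rw [ed]; exact hG.pd
  · intro A hA
    cases A with
    | succ i k =>
      simp only [Atom.Holds] at hA ⊢
      rcases hx i with h | h | h | h <;> rcases hx k with h' | h' | h' | h' <;>
        rw [h, h'] at hA <;> rw [h, h'] <;> simp only [ea, eb, ec, ed] <;>
        first | exact hG.s1 hA | exact hG.s2 hA | exact hG.s3 hA | omega
    | fact i k =>
      simp only [Atom.Holds] at hA ⊢
      rcases hx i with h | h | h | h <;> rcases hx k with h' | h' | h' | h' <;>
        rw [h, h'] at hA <;> rw [h, h'] <;> simp only [ea, eb, ec, ed] <;>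
        first | exact hG.fa hA | exact hG.fb hA | exact hG.fc hA | exact hG.fab hA
              | exact hG.fac hA | exact hG.fad hA | exact hG.fbc hA | exact hG.fbd hA
              | exact hG.fcd hA | omega
    | ndvd i k =>
      simp only [Atom.Holds] at hA ⊢
      rcases hx i with h | h | h | h <;> rcases hx k with h' | h' | h' | h' <;>
        rw [h, h'] at hA <;> rw [h, h'] <;> simp only [ea, eb, ec, ed] <;>
        first | exact absurd dvd_rfl hA | exact hG.dba | exact hG.dca | exact hG.dda
              | exact hG.dcb | exact hG.ddb | exact hG.ddc | exact hG.uab hA | exact hG.uac hA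
              | exact hG.uad hA | exact hG.ubc hA | exact hG.ubd hA | exact hG.ucd hA
  · rcases hG.big with h | h | h | h
    · obtain ⟨i, hi⟩ := ha
      exact ⟨i, by show N < φ (x i); rw [hi, ea]; exact h⟩
    · obtain ⟨i, hi⟩ := hb
      exact ⟨i, by show N < φ (x i); rw [hi, eb]; exact h⟩
    · obtain ⟨i, hi⟩ := hc
      exact ⟨i, by show N < φ (x i); rw [hi, ec]; exact h⟩
    · obtain ⟨i, hi⟩ := hd'
      exact ⟨i, by show N < φ (x i); rw [hi, ed]; exact h⟩

theorem phi4_of (H : ∀ N, ∃ m, N < m ∧ (Nat.factorial m + 1).Prime) : Phi 4 := by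
  apply phi_of'
  intro x hx j hmax hj N
  have hf := hf4
  rw [hf] at hj
  obtain ⟨σ, hσ⟩ : ∃ σ : Equiv.Perm (Fin 4), Monotone (x ∘ σ) := ⟨Tuple.sort x, Tuple.monotone_sort x⟩
  have h01 : x (σ 0) ≤ x (σ 1) := hσ (show (0 : Fin 4) ≤ 1 by decide)
  have h12 : x (σ 1) ≤ x (σ 2) := hσ (show (1 : Fin 4) ≤ 2 by decide)
  have h23 : x (σ 2) ≤ x (σ 3) := hσ (show (2 : Fin 4) ≤ 3 by decide)
  have hcov : ∀ i, x i = x (σ 0) ∨ x i = x (σ 1) ∨ x i = x (σ 2) ∨ x i = x (σ 3) := by
    intro i
    obtain ⟨k, rfl⟩ := σ.surjective i
    fin_cases k <;> simp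
  have hd : 720 < x (σ 3) := by
    rcases hcov j with h | h | h | h <;> omega
  by_cases hs : x (σ 0) < x (σ 1) ∧ x (σ 1) < x (σ 2) ∧ x (σ 2) < x (σ 3)
  · obtain ⟨a', b', c', d', hG⟩ := core4 H N _ _ _ _ (hx (σ 0)) hs.1 hs.2.1 hs.2.2 hd
    exact transfer4 N x _ _ _ _ a' b' c' d' hs.1 hs.2.1 hs.2.2 hd hG hcov ⟨_, rfl⟩ ⟨_, rfl⟩
      ⟨_, rfl⟩ ⟨_, rfl⟩
  · obtain ⟨u, v, hu, hv, huc, hvc, hcov'⟩ : ∃ u v, 0 < u ∧ 0 < v ∧ u ≤ x (σ 3) ∧ v ≤ x (σ 3) ∧
        ∀ i, x i = u ∨ x i = v ∨ x i = x (σ 3) := by
      by_cases e1 : x (σ 0) = x (σ 1)
      · refine ⟨x (σ 1), x (σ 2), hx _, hx _, by omega, by omega, fun i => ?_⟩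
        rcases hcov i with h | h | h | h <;> omega
      · refine ⟨x (σ 0), x (σ 1), hx _, hx _, by omega, by omega, fun i => ?_⟩
        rcases hcov i with h | h | h | h <;> omega
    obtain ⟨a, b, ha, hab, hbc, hua, hvb⟩ := pick u v (x (σ 3)) hu hv huc hvc (by omega)
    obtain ⟨a', b', c', hG⟩ := core3 N a b (x (σ 3)) ha hab hbc (by omega)
    obtain ⟨y, hy, hN⟩ := transfer3 N x a b (x (σ 3)) a' b' c' ha hab hbc (by omega) hG (by
      intro i
      rcases hcov' i with h | h | h
      · rw [h]; exact hua
      · rw [h]; exact hvb
      · exact Or.inr (Or.inr h)) (σ 3) rfl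
    exact ⟨y, hy, σ 3, hN⟩

set_option maxRecDepth 100000 in
lemma prime11 : (Nat.factorial 11 + 1).Prime := by
  norm_num [Nat.factorial]

lemma exists_big : ∃ k w : ℕ, 0 < k ∧ Nat.factorial k = w ∧ (w + 1).Prime ∧ 720 < w :=
  ⟨11, Nat.factorial 11, by norm_num, rfl, prime11, by norm_num [Nat.factorial]⟩

/-- the primes of the form `m! + 1` -/
def FactPrimes : Set ℕ := {p | p.Prime ∧ ∃ m, p = Nat.factorial m + 1}

lemma infinite_of_phi4 (h4 : Phi 4) : FactPrimes.Infinite := by
  intro hfin
  obtain ⟨B, hB⟩ := hfin.bddAbove
  let S : Set (Atom 4) := {Atom.fact 0 1, Atom.succ 1 2, Atom.fact 1 3, Atom.ndvd 2 3}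
  have hmem : ∀ x : Fin 4 → ℕ, x ∈ Sol S → (∀ i, 0 < x i) ∧ Nat.factorial (x 0) = x 1 ∧
      x 1 + 1 = x 2 ∧ Nat.factorial (x 1) = x 3 ∧ ¬ x 2 ∣ x 3 := by
    intro x hx
    refine ⟨hx.1, hx.2 (Atom.fact 0 1) (by simp [S]), hx.2 (Atom.succ 1 2) (by simp [S]),
      hx.2 (Atom.fact 1 3) (by simp [S]), hx.2 (Atom.ndvd 2 3) (by simp [S])⟩
  have hsolfin : (Sol S).Finite := by
    refine ((Set.finite_Iic (B + 5)).image (fun m => (![m, Nat.factorial m, Nat.factorial m + 1,
      Nat.factorial (Nat.factorial m)] : Fin 4 → ℕ))).subset ?_
    intro x hx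
    obtain ⟨hpos, e1, e2, e3, e4⟩ := hmem x hx
    refine ⟨x 0, ?_, ?_⟩
    · show x 0 ≤ B + 5
      have h1 := Nat.self_le_factorial (x 0)
      by_cases hle : x 2 < 5
      · omega
      · have hp : (x 2).Prime := prime_of_ndvd (by omega) (by
          rw [show x 2 - 1 = x 1 by omega, e3]; exact e4)
        have := hB (show x 2 ∈ FactPrimes from ⟨hp, x 0, by rw [e1, e2]⟩)
        omega
    · funext i
      fin_cases i
      · rfl
      · exact e1
      · show Nat.factorial (x 0) + 1 = x 2
        rw [e1, e2]
      · show Nat.factorial (Nat.factorial (x 0)) = x 3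
        rw [e1, e3]
  have hf := hf4
  obtain ⟨k, w, hk, hw, hp, hbig⟩ := exists_big
  have hxs : (![k, w, w + 1, Nat.factorial w] : Fin 4 → ℕ) ∈ Sol S := by
    refine ⟨?_, ?_⟩
    · intro i
      fin_cases i
      · exact hk
      · exact (by omega : 0 < w)
      · exact Nat.succ_pos w
      · exact Nat.factorial_pos w
    · intro A hA
      simp only [S, Set.mem_insert_iff, Set.mem_singleton_iff] at hA
      rcases hA with rfl | rfl | rfl | rfl
      · exact hw
      · rfl
      · rfl
      · exact ndf hp (Nat.lt_succ_self w)
  have := h4 S hsolfin _ hxs 1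
  rw [hf] at this
  have h2 : w ≤ 720 := this
  omega

lemma exists_of_infinite (h : FactPrimes.Infinite) :
    ∀ N, ∃ m, N < m ∧ (Nat.factorial m + 1).Prime := by
  intro N
  obtain ⟨p, ⟨hp, m, rfl⟩, hlt⟩ := h.exists_gt (Nat.factorial N + 1)
  refine ⟨m, ?_, hp⟩
  by_contra hcon
  have := Nat.factorial_le (show m ≤ N by omega)
  omega

/-- `Φ_1`, `Φ_2`, `Φ_3` are true, and `Φ_4` is equivalent to the existence of infinitely many
primes of the form `m! + 1`. -/
theorem result : (Phi 1 ∧ Phi 2 ∧ Phi 3) ∧ (Phi 4 ↔ FactPrimes.Infinite) :=
  ⟨⟨phi1, phi2, phi3⟩, infinite_of_phi4, fun h => phi4_of (exists_of_infinite h)⟩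

end Pool.Agent.Results.MP_38ee21_nt.FactorialPrimes
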