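import Mathlib
import Pool.Agent.H312Fac.Final

/-!
# The statement `Φ₄`

`Φ₄` says that a system of atoms `x_i + 1 = x_k`, `x_i! = x_k`, `x_i ∤ x_k` in four positive
integer unknowns with only finitely many solutions has all its solutions bounded by `f(4) = 720`.
-/

namespace Pool.Agent.Results.MP_38ee21_nt.PhiFour

/-- The set of solutions in positive integers of the system in 4 unknowns with the atoms
`x_i + 1 = x_k` for `(i, k) ∈ A`, `x_i! = x_k` for `(i, k) ∈ B` and `x_i ∤ x_k` for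
`(i, k) ∈ C`. -/
def Sol (A B C : Set (Fin 4 × Fin 4)) : Set (Fin 4 → ℕ) :=
  {x : Fin 4 → ℕ | (∀ i, 1 ≤ x i) ∧ (∀ p ∈ A, x p.1 + 1 = x p.2) ∧
    (∀ p ∈ B, Nat.factorial (x p.1) = x p.2) ∧ (∀ p ∈ C, ¬ (x p.1 ∣ x p.2))}

theorem result :
    -- unconditionally, `Φ₄` can only fail at the tuples `(m, m!, m! + 1, (m!)!)`, `m! + 1` prime
    (∀ A B C : Set (Fin 4 × Fin 4), (Sol A B C).Finite → ∀ x ∈ Sol A B C, (∃ i, 720 < x i) →
      ∃ m : ℕ, 4 ≤ m ∧ (Nat.factorial m + 1).Prime ∧ ∃ σ : Equiv.Perm (Fin 4),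
        x (σ 0) = m ∧ x (σ 1) = Nat.factorial m ∧ x (σ 2) = Nat.factorial m + 1 ∧
        x (σ 3) = Nat.factorial (Nat.factorial m)) ∧
    -- `Φ₄` is equivalent to the infinitude of the primes of the form `m! + 1`
    ((∀ A B C : Set (Fin 4 × Fin 4), (Sol A B C).Finite → ∀ x ∈ Sol A B C, ∀ i, x i ≤ 720) ↔
      {m : ℕ | (Nat.factorial m + 1).Prime}.Infinite) :=
  ⟨Pool.Agent.H312Fac.part1, Pool.Agent.H312Fac.part2, Pool.Agent.H312Fac.part3⟩

end Pool.Agent.Results.MP_38ee21_nt.PhiFour
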